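import Pool.Agent.helper10.RC.Defs

/-! Basic facts on `Reach`, `Wk`, unfrozen vertices. -/

set_option linter.unusedSectionVars false
set_option linter.unusedVariables false

namespace Pool.Agent.helper10.RC

variable {V : Type*} {K : Type*} [Fintype V] [DecidableEq V] [DecidableEq K]
variable {G : SimpleGraph V} [DecidableRel G.Adj] {L : V → Finset K}

/-! ### Reach -/

theorem Reach.good_right {M : Set V} {k : ℕ} {f g : V → K} (h : Reach G L M k f g) : Good G L g := by
  cases h with
  | refl _ _ hf => exact hf
  | tail _ _ _ _ _ _ hg _ _ => exact hg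

theorem Reach.good_left {M : Set V} {k : ℕ} {f g : V → K} (h : Reach G L M k f g) : Good G L f := by
  induction h with
  | refl _ _ hf => exact hf
  | tail _ _ _ _ _ _ _ _ _ ih => exact ih

theorem Reach.mono {M M' : Set V} (hM : M ⊆ M') {k k' : ℕ} (hk : k ≤ k') {f g : V → K}
    (h : Reach G L M k f g) : Reach G L M' k' f g := by
  induction h generalizing k' with
  | refl _ _ hf => exact Reach.refl _ _ hf
  | tail k f g h v _ hg hv hu ih =>
    obtain ⟨k'', rfl⟩ : ∃ k'', k' = k'' + 1 := ⟨k' - 1, by omega⟩
    exact Reach.tail k'' f g h v (ih (by omega)) hg (hM hv) hu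

theorem Reach.trans {M : Set V} {k k' : ℕ} {f g h : V → K} (h1 : Reach G L M k f g)
    (h2 : Reach G L M k' g h) : Reach G L M (k + k') f h := by
  induction h2 with
  | refl k' g hf => exact h1.mono (le_refl _) (by omega)
  | tail k' g g' h v _ hg hv hu ih => exact Reach.tail _ f g' h v (ih h1) hg hv hu

theorem Reach.agree {M : Set V} {k : ℕ} {f g : V → K} (h : Reach G L M k f g) :
    ∀ u, u ∉ M → g u = f u := by
  induction h with
  | refl _ _ hf => exact fun u _ => rfl
  | tail k f g h v _ hg hv hu ih =>
    intro u huM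
    have : u ≠ v := fun e => huM (e ▸ hv)
    rw [hu u this, ih u huM]

theorem good_update {f : V → K} (hf : Good G L f) {v : V} {c : K} (hc : c ∈ L v)
    (hn : ∀ u, G.Adj v u → f u ≠ c) : Good G L (Function.update f v c) := by
  constructor
  · intro u
    by_cases h : u = v
    · subst h; simpa using hc
    · simpa [Function.update_of_ne h] using hf.1 u
  · intro u u' ha
    by_cases h : u = v
    · subst h
      have h' : u' ≠ u := fun e => G.loopless.irrefl u (e ▸ ha)
      rw [Function.update_self, Function.update_of_ne h']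
      exact (hn u' ha).symm
    · by_cases h' : u' = v
      · subst h'
        rw [Function.update_self, Function.update_of_ne h]
        exact hn u ha.symm
      · rw [Function.update_of_ne h, Function.update_of_ne h']
        exact hf.2 u u' ha

theorem reach_one {M : Set V} {f : V → K} (hf : Good G L f) {v : V} {c : K} (hv : v ∈ M) (hc : c ∈ L v)
    (hn : ∀ u, G.Adj v u → f u ≠ c) : Reach G L M 1 f (Function.update f v c) :=
  Reach.tail 0 f f _ v (Reach.refl 0 f hf) (good_update hf hc hn) hv
    (fun u hu => Function.update_of_ne hu _ _)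

/-! ### frozen vertices -/

theorem frozen_props {f : V → K} {v : V} (hL : G.degree v + 1 ≤ (L v).card)
    (hf : Good G L f) (h : ¬ Unf G L f v) :
    (∀ u, G.Adj v u → f u ∈ L v) ∧ (∀ u u', G.Adj v u → G.Adj v u' → f u = f u' → u = u') ∧
      (L v).card ≤ G.degree v + 1 := by
  classical
  have hsub : (L v).erase (f v) ⊆ (G.neighborFinset v).image f := by
    intro c hc
    rw [Finset.mem_erase] at hc
    by_contra hcon
    apply h
    refine ⟨c, hc.2, hc.1, fun u hu hfu => hcon ?_⟩
    exact Finset.mem_image.2 ⟨u, by simpa using hu, hfu⟩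
  have hcard : ((L v).erase (f v)).card = (L v).card - 1 := Finset.card_erase_of_mem (hf.1 v)
  have h1 : ((L v).erase (f v)).card ≤ ((G.neighborFinset v).image f).card := Finset.card_le_card hsub
  have h2 : ((G.neighborFinset v).image f).card ≤ (G.neighborFinset v).card := Finset.card_image_le
  have h3 : (G.neighborFinset v).card = G.degree v := G.card_neighborFinset_eq_degree v
  have heq : (L v).erase (f v) = (G.neighborFinset v).image f :=
    Finset.eq_of_subset_of_card_le hsub (by omega)
  have hinj : Set.InjOn f (G.neighborFinset v) := by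
    apply Finset.injOn_of_card_image_eq
    have : ((G.neighborFinset v).image f).card = ((L v).erase (f v)).card := by rw [heq]
    omega
  refine ⟨fun u hu => ?_, fun u u' hu hu' he => ?_, by omega⟩
  · have : f u ∈ (L v).erase (f v) := by
      rw [heq]; exact Finset.mem_image.2 ⟨u, by simpa using hu, rfl⟩
    exact (Finset.mem_erase.1 this).2
  · exact hinj (by simpa using hu) (by simpa using hu') he

theorem unf_of_reason {f : V → K} {x : V} {P : Set V} (hL : G.degree x + 1 ≤ (L x).card)
    (hf : Good G L f) (h : Reason G L f x P) : Unf G L f x := by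
  by_contra hu
  obtain ⟨h1, h2, h3⟩ := frozen_props hL hf hu
  rcases h with ⟨y, _, hy, hn⟩ | ⟨y₁, _, y₂, _, hne, ha, hb, he⟩ | hc
  · exact hn (h1 y hy)
  · exact hne (h2 y₁ y₂ ha hb he)
  · omega

theorem Reason.congr {f g : V → K} {x : V} {P : Set V} (h : Reason G L f x P)
    (hfg : ∀ u ∈ P, g u = f u) : Reason G L g x P := by
  rcases h with ⟨y, hP, hy, hn⟩ | ⟨y₁, hP1, y₂, hP2, hne, ha, hb, he⟩ | hc
  · exact Or.inl ⟨y, hP, hy, by rw [hfg y hP]; exact hn⟩
  · exact Or.inr (Or.inl ⟨y₁, hP1, y₂, hP2, hne, ha, hb, by rw [hfg _ hP1, hfg _ hP2]; exact he⟩)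
  · exact Or.inr (Or.inr hc)

theorem src_of_reason {f : V → K} {x : V} {P M : Set V} (hL : G.degree x + 1 ≤ (L x).card)
    (h : Reason G L f x P) (hPM : ∀ u ∈ P, u ∉ M) : Src G L M f x := by
  intro f' hf' hag
  exact unf_of_reason hL hf' (h.congr fun u hu => hag u (hPM u hu))

theorem Reason.reach {f g : V → K} {x : V} {P M : Set V} {k : ℕ} (h : Reason G L f x P)
    (hr : Reach G L M k f g) (hPM : ∀ u ∈ P, u ∉ M) : Reason G L g x P :=
  h.congr fun u hu => hr.agree u (hPM u hu)

theorem Src.reach {f g : V → K} {x : V} {M : Set V} {k : ℕ} (h : Src G L M f x)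
    (hr : Reach G L M k f g) : Src G L M g x := by
  intro f' hf' hag
  exact h f' hf' fun u hu => by rw [hag u hu, hr.agree u hu]

theorem Src.anti {f : V → K} {x : V} {M M' : Set V} (h : Src G L M f x) (hM : M' ⊆ M) :
    Src G L M' f x := by
  intro f' hf' hag
  exact h f' hf' fun u hu => hag u fun hc => hu (hM hc)

/-! ### walks -/

theorem Wk.mono {S S' : Set V} (hS : S ⊆ S') {m m' : ℕ} (hm : m ≤ m') {a b : V} (h : Wk G S m a b) :
    Wk G S' m' a b := by
  induction h generalizing m' with
  | refl m a => exact Wk.refl _ _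
  | step m a b c ha hab _ ih =>
    obtain ⟨m'', rfl⟩ : ∃ m'', m' = m'' + 1 := ⟨m' - 1, by omega⟩
    exact Wk.step m'' a b c (hS ha) hab (ih (by omega))

theorem Wk.trans {S : Set V} {m n : ℕ} {a b c : V} (h1 : Wk G S m a b) (h2 : Wk G S n b c) :
    Wk G S (m + n) a c := by
  induction h1 with
  | refl m a => exact h2.mono (le_refl _) (by omega)
  | step m a b c' ha hab _ ih =>
    have := Wk.step (m + n) a b _ ha hab (ih h2)
    exact this.mono (le_refl _) (by omega)

theorem Wk.snoc {S : Set V} {m : ℕ} {a b c : V} (h1 : Wk G S m a b) (hb : b ∈ S) (hbc : G.Adj b c) :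
    Wk G S (m + 1) a c :=
  h1.trans (Wk.step 0 b c c hb hbc (Wk.refl 0 c))

/-- all vertices but the last lie in `S`: the start lies in `S` if it is not the end. -/
theorem Wk.start_mem {S : Set V} {m : ℕ} {a b : V} (h : Wk G S m a b) (hab : a ≠ b) : a ∈ S := by
  cases h with
  | refl => exact absurd rfl hab
  | step _ _ _ _ ha _ _ => exact ha

theorem Wk.symm {S : Set V} {m : ℕ} {a b : V} (h : Wk G S m a b) (hb : b ∈ S) : Wk G S m b a := by
  induction h with
  | refl m a => exact Wk.refl _ _
  | step m a b c ha hab h ih =>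
    by_cases hbc : b = c
    · subst hbc
      exact (Wk.step 0 b a a hb hab.symm (Wk.refl 0 a)).mono (le_refl _) (by omega)
    · exact (ih hb).snoc (h.start_mem hbc) hab.symm

/-- either the walk avoids `A` before its end, or a first vertex of `A` on it. -/
theorem Wk.firstHit {S : Set V} {m : ℕ} {a z : V} (h : Wk G S m a z) (A : Set V) :
    Wk G (S \ A) m a z ∨ ∃ q ∈ A, q ∈ S ∧ Wk G (S \ A) m a q := by
  induction h with
  | refl m a => exact Or.inl (Wk.refl _ _)
  | step m a b c ha hab h ih =>
    by_cases haA : a ∈ A
    · exact Or.inr ⟨a, haA, ha, Wk.refl _ _⟩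
    · rcases ih with ih | ⟨q, hq, hqS, hw⟩
      · exact Or.inl (Wk.step _ _ _ _ ⟨ha, haA⟩ hab ih)
      · exact Or.inr ⟨q, hq, hqS, Wk.step _ _ _ _ ⟨ha, haA⟩ hab hw⟩

/-- either the walk avoids `A`, or a last vertex of `A` on it. -/
theorem Wk.lastHit {S : Set V} {m : ℕ} {a z : V} (h : Wk G S m a z) (A : Set V) :
    Wk G (S \ A) m a z ∨ ∃ q ∈ A, q ∈ S ∧ ∃ q', G.Adj q q' ∧ Wk G (S \ A) m q' z := by
  induction h with
  | refl m a => exact Or.inl (Wk.refl _ _)
  | step m a b c ha hab h ih =>
    rcases ih with ih | ⟨q, hq, hqS, q', hqq, hw⟩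
    · by_cases haA : a ∈ A
      · exact Or.inr ⟨a, haA, ha, b, hab, ih.mono (le_refl _) (by omega)⟩
      · exact Or.inl (Wk.step _ _ _ _ ⟨ha, haA⟩ hab ih)
    · exact Or.inr ⟨q, hq, hqS, q', hqq, hw.mono (le_refl _) (by omega)⟩

/-! ### transport of a hole -/

theorem transport (hL : ∀ v, G.degree v + 1 ≤ (L v).card) {S : Set V} {m : ℕ} {a z : V}
    (h : Wk G S m a z) : ∀ (f : V → K), Good G L f → Unf G L f a →
      ∃ g, Reach G L S m f g ∧ Unf G L g z := by
  induction h with
  | refl m a => exact fun f hf hu => ⟨f, Reach.refl _ _ hf, hu⟩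
  | step m a b c ha hab h ih =>
    intro f hf hu
    by_cases hb : Unf G L f b
    · obtain ⟨g, hg, hz⟩ := ih f hf hb
      exact ⟨g, hg.mono (le_refl _) (by omega), hz⟩
    · obtain ⟨h1, h2, h3⟩ := frozen_props (hL b) hf hb
      obtain ⟨t, htL, hta, htn⟩ := hu
      have hr := reach_one hf ha htL htn
      have hu' : Unf G L (Function.update f a t) b := by
        refine ⟨f a, h1 a hab.symm, ?_, ?_⟩
        · rw [Function.update_of_ne hab.ne']
          exact hf.2 a b hab
        · intro u hbu
          by_cases hua : u = a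
          · subst hua
            rw [Function.update_self]; exact hta
          · rw [Function.update_of_ne hua]
            intro he
            exact hua (h2 u a hbu hab.symm he)
      obtain ⟨g, hg, hz⟩ := ih _ hr.good_right hu'
      exact ⟨g, (hr.trans hg).mono (le_refl _) (by omega), hz⟩

/-- recolour an unfrozen vertex `v` with a colour that at most one neighbour has -/
theorem recol3 (hL : ∀ v, G.degree v + 1 ≤ (L v).card) {M : Set V} {f : V → K} (hf : Good G L f) {v : V}
    {c : K} (hv : v ∈ M) (hu : Unf G L f v) (hc : c ∈ L v)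
    (hM : ∀ u, G.Adj v u → f u = c → u ∈ M)
    (h1 : ∀ u u', G.Adj v u → G.Adj v u' → f u = c → f u' = c → u = u') :
    ∃ g, Reach G L M 3 f g ∧ g v = c := by
  by_cases hex : ∃ u, G.Adj v u ∧ f u = c
  · obtain ⟨u, hvu, huc⟩ := hex
    have huM := hM u hvu huc
    by_cases huu : Unf G L f u
    · obtain ⟨e, heL, hec, hen⟩ := huu
      have r1 := reach_one hf huM heL hen
      have r2 : Reach G L M 1 (Function.update f u e) (Function.update (Function.update f u e) v c) := by
        apply reach_one r1.good_right hv hc
        intro u' hvu'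
        by_cases h : u' = u
        · subst h; rw [Function.update_self]; rw [← huc]; exact hec
        · rw [Function.update_of_ne h]
          intro h'
          exact h (h1 u' u hvu' hvu h' huc)
      exact ⟨_, (r1.trans r2).mono (le_refl _) (by omega), Function.update_self _ _ _⟩
    · obtain ⟨p1, p2, p3⟩ := frozen_props (hL u) hf huu
      obtain ⟨t, htL, htv, htn⟩ := hu
      have r1 := reach_one hf hv htL htn
      have r2 : Reach G L M 1 (Function.update f v t)
          (Function.update (Function.update f v t) u (f v)) := by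
        apply reach_one r1.good_right huM (p1 v hvu.symm)
        intro u' huu'
        by_cases h : u' = v
        · subst h; rw [Function.update_self]; exact htv
        · rw [Function.update_of_ne h]
          intro h'
          exact h (p2 u' v huu' hvu.symm h')
      have r3 : Reach G L M 1 (Function.update (Function.update f v t) u (f v))
          (Function.update (Function.update (Function.update f v t) u (f v)) v c) := by
        apply reach_one r2.good_right hv hc
        intro u' hvu'
        by_cases h : u' = u
        · subst h; rw [Function.update_self, ← huc]; exact hf.2 v u' hvu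
        · rw [Function.update_of_ne h, Function.update_of_ne hvu'.ne']
          intro h'
          exact h (h1 u' u hvu' hvu h' huc)
      exact ⟨_, ((r1.trans r2).trans r3).mono (le_refl _) (by omega), Function.update_self _ _ _⟩
  · push Not at hex
    exact ⟨_, (reach_one hf hv hc hex).mono (le_refl _) (by omega), Function.update_self _ _ _⟩

end Pool.Agent.helper10.RC
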