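import Pool.Agent.helper10.RC.A

/-! Forcing a colour at a vertex; building a gadget state. -/

set_option linter.unusedSectionVars false
set_option linter.unusedVariables false

namespace Pool.Agent.helper10.RC

variable {V : Type*} {K : Type*} [Fintype V] [DecidableEq V] [DecidableEq K]
variable {G : SimpleGraph V} [DecidableRel G.Adj] {L : V → Finset K}

/-- the neighbours of `y` of colour `c` -/
def blk (G : SimpleGraph V) [DecidableRel G.Adj] (f : V → K) (y : V) (c : K) : Finset V :=
  (G.neighborFinset y).filter (fun u => f u = c)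

theorem mem_blk {f : V → K} {y : V} {c : K} {u : V} : u ∈ blk G f y c ↔ G.Adj y u ∧ f u = c := by
  simp [blk]

/-- if `y` is unfrozen and `u` a neighbour, then `u` can leave its colour, only `y` and `u` moving -/
theorem drop_blocker (hL : ∀ v, G.degree v + 1 ≤ (L v).card) {M : Set V} {f : V → K} (hf : Good G L f)
    {y u : V} (hy : y ∈ M) (hu : u ∈ M) (hyu : G.Adj y u) (hun : Unf G L f y) :
    ∃ g, Reach G L M 2 f g ∧ (∀ z, z ≠ y → z ≠ u → g z = f z) ∧ g u ≠ f u := by
  by_cases huu : Unf G L f u
  · obtain ⟨e, heL, hec, hen⟩ := huu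
    refine ⟨_, (reach_one hf hu heL hen).mono (le_refl _) (by omega), ?_, ?_⟩
    · intro z _ hz; exact Function.update_of_ne hz _ _
    · rw [Function.update_self]; exact hec
  · obtain ⟨p1, p2, p3⟩ := frozen_props (hL u) hf huu
    obtain ⟨t, htL, htv, htn⟩ := hun
    have r1 := reach_one hf hy htL htn
    have r2 : Reach G L M 1 (Function.update f y t)
        (Function.update (Function.update f y t) u (f y)) := by
      apply reach_one r1.good_right hu (p1 y hyu.symm)
      intro u' huu'
      by_cases h : u' = y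
      · subst h; rw [Function.update_self]; exact htv
      · rw [Function.update_of_ne h]
        intro h'
        exact h (p2 u' y huu' hyu.symm h')
    refine ⟨_, (r1.trans r2).mono (le_refl _) (by omega), ?_, ?_⟩
    · intro z hz hz'
      rw [Function.update_of_ne hz', Function.update_of_ne hz]
    · rw [Function.update_self]
      exact hf.2 y u hyu

/-- reduce the set of blockers to one chosen element -/
theorem reduce_blk (hL : ∀ v, G.degree v + 1 ≤ (L v).card) {M : Set V} {y : V} {c : K} (hy : y ∈ M)
    (hM : ∀ u, G.Adj y u → u ∈ M) : ∀ (n : ℕ) (f : V → K), Good G L f →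
    (blk G f y c).card ≤ n → ∀ z ∈ blk G f y c,
    ∃ g, Reach G L M (2 * n) f g ∧ blk G g y c = {z} := by
  intro n
  induction n with
  | zero =>
    intro f hf hn z hz
    have : blk G f y c = ∅ := Finset.card_eq_zero.1 (by omega)
    rw [this] at hz; simp at hz
  | succ n ih =>
    intro f hf hn z hz
    by_cases h1 : ∃ u ∈ blk G f y c, u ≠ z
    · obtain ⟨u, hu, huz⟩ := h1
      have hyu := (mem_blk.1 hu)
      have hyz := (mem_blk.1 hz)
      have hun : Unf G L f y := unf_of_reason (P := {u, z}) (hL y) hf
        (Or.inr (Or.inl ⟨u, by simp, z, by simp, huz, hyu.1, hyz.1, by rw [hyu.2, hyz.2]⟩))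
      obtain ⟨g, hg, hag, hgu⟩ := drop_blocker hL hf hy (hM u hyu.1) hyu.1 hun
      have hb : blk G g y c = (blk G f y c).erase u := by
        ext w
        rw [Finset.mem_erase, mem_blk, mem_blk]
        by_cases hwu : w = u
        · subst hwu
          constructor
          · rintro ⟨_, h⟩; exact absurd (h.trans hyu.2.symm) hgu
          · rintro ⟨h, _⟩; exact absurd rfl h
        · constructor
          · rintro ⟨h, h'⟩
            exact ⟨hwu, h, by rw [← hag w h.ne' hwu]; exact h'⟩
          · rintro ⟨_, h, h'⟩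
            exact ⟨h, by rw [hag w h.ne' hwu]; exact h'⟩
      have hcard : (blk G g y c).card ≤ n := by
        rw [hb, Finset.card_erase_of_mem hu]; omega
      obtain ⟨g', hg', hb'⟩ := ih g hg.good_right hcard z (by rw [hb]; exact Finset.mem_erase.2 ⟨huz.symm, hz⟩)
      exact ⟨g', (hg.trans hg').mono (le_refl _) (by omega), hb'⟩
    · push Not at h1
      refine ⟨f, Reach.refl _ _ hf, ?_⟩
      ext w
      rw [Finset.mem_singleton]
      exact ⟨fun h => h1 w h, fun h => h ▸ hz⟩

/-- no blocker: recolour -/
theorem fix_zero {M : Set V} {f : V → K} (hf : Good G L f) {y : V} {c : K} (hy : y ∈ M) (hc : c ∈ L y)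
    (hb : blk G f y c = ∅) : ∃ g, Reach G L M 1 f g ∧ g y = c := by
  refine ⟨_, reach_one hf hy hc ?_, Function.update_self _ _ _⟩
  intro u hu h
  have : u ∈ blk G f y c := mem_blk.2 ⟨hu, h⟩
  rw [hb] at this; simp at this

/-- the only blocker `z` is the end of the walk -/
theorem fix_end (hL : ∀ v, G.degree v + 1 ≤ (L v).card) {M : Set V} {f : V → K} (hf : Good G L f)
    {y z s : V} {c : K} {m : ℕ} (hy : y ∈ M) (hz : z ∈ M) (hc : c ∈ L y)
    (hw : Wk G (M \ ({y} ∪ G.neighborSet y)) m s z) (hs : Unf G L f s)
    (hb : blk G f y c = {z}) : ∃ g, Reach G L M (m + 2) f g ∧ g y = c := by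
  obtain ⟨g, hg, hgz⟩ := transport hL hw f hf hs
  have hag : ∀ u, G.Adj y u → g u = f u := fun u hu => hg.agree u (fun h => h.2 (Or.inr hu))
  have hzb : z ∈ blk G f y c := by rw [hb]; simp
  have hyz := (mem_blk.1 hzb)
  obtain ⟨t, htL, htz, htn⟩ := hgz
  have r1 : Reach G L M 1 g (Function.update g z t) := reach_one hg.good_right hz htL htn
  have hb2 : blk G (Function.update g z t) y c = ∅ := by
    ext w
    rw [mem_blk]
    simp only [Finset.notMem_empty, iff_false, not_and]
    intro hyw
    by_cases hwz : w = z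
    · subst hwz
      rw [Function.update_self]
      intro h
      apply htz
      rw [hag w hyw, hyz.2]; exact h
    · rw [Function.update_of_ne hwz, hag w hyw]
      intro h
      have : w ∈ blk G f y c := mem_blk.2 ⟨hyw, h⟩
      rw [hb] at this
      exact hwz (by simpa using this)
  obtain ⟨g', hg', hc'⟩ := fix_zero (M := M) r1.good_right hy hc hb2
  exact ⟨g', (((hg.mono Set.sdiff_subset (le_refl _)).trans r1).trans hg').mono (le_refl _) (by omega), hc'⟩

theorem walk_to_nbr {M : Set V} {s y : V} {m : ℕ} (h : Wk G M m s y) (hsy : s ≠ y) :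
    ∃ z, G.Adj y z ∧ z ∈ M ∧ Wk G (M \ ({y} ∪ G.neighborSet y)) m s z := by
  -- first reach `y`
  have key : ∀ {a b : V} {k : ℕ}, Wk G M k a b → a ≠ y → b = y →
      ∃ z, G.Adj y z ∧ z ∈ M ∧ Wk G (M \ {y}) k a z := by
    intro a b k hw
    induction hw with
    | refl k a => intro h1 h2; exact absurd h2 h1
    | step k a b c ha hab hbc ih =>
      intro h1 h2
      by_cases hb : b = y
      · subst hb
        exact ⟨a, hab.symm, ha, Wk.refl _ _⟩
      · obtain ⟨z, hz, hzM, hw⟩ := ih hb h2
        exact ⟨z, hz, hzM, Wk.step _ _ _ _ ⟨ha, h1⟩ hab hw⟩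
  obtain ⟨z, hz, hzM, hw⟩ := key h hsy rfl
  have hset : (M \ {y}) \ G.neighborSet y = M \ ({y} ∪ G.neighborSet y) := by
    rw [Set.sdiff_sdiff]
  rcases hw.firstHit (G.neighborSet y) with h1 | ⟨q, hq, hqS, h1⟩
  · exact ⟨z, hz, hzM, by rwa [hset] at h1⟩
  · exact ⟨q, hq, hqS.1, by rwa [hset] at h1⟩

/-- force the colour `c` at `y` -/
theorem fix (hL : ∀ v, G.degree v + 1 ≤ (L v).card) {M : Set V} {f : V → K} (hf : Good G L f)
    {y s : V} {c : K} {m : ℕ} (hy : y ∈ M) (hM : ∀ u, G.Adj y u → u ∈ M) (hc : c ∈ L y)
    (hsy : s ≠ y) (hw : Wk G M m s y) (hs : Src G L M f s) :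
    ∃ g, Reach G L M (2 * (blk G f y c).card + 2 * m + 12) f g ∧ g y = c := by
  obtain ⟨z, hyz, hzM, hwz⟩ := walk_to_nbr hw hsy
  have hsub : M \ ({y} ∪ G.neighborSet y) ⊆ M := Set.sdiff_subset
  by_cases h0 : blk G f y c = ∅
  · obtain ⟨g, hg, hgc⟩ := fix_zero (M := M) hf hy hc h0
    exact ⟨g, hg.mono (le_refl _) (by omega), hgc⟩
  by_cases hz : z ∈ blk G f y c
  · obtain ⟨g, hg, hb⟩ := reduce_blk hL hy hM _ f hf (le_refl _) z hz
    obtain ⟨g', hg', hc'⟩ := fix_end hL hg.good_right hy hzM hc hwz
      ((hs.reach hg) g hg.good_right (fun _ _ => rfl)) hb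
    exact ⟨g', (hg.trans hg').mono (le_refl _) (by omega), hc'⟩
  · obtain ⟨u, hu⟩ := Finset.nonempty_iff_ne_empty.2 h0
    have huz : u ≠ z := fun h => hz (h ▸ hu)
    obtain ⟨g, hg, hb⟩ := reduce_blk hL hy hM _ f hf (le_refl _) u hu
    have hsg := (hs.reach hg)
    obtain ⟨g1, hg1, hz1⟩ := transport hL hwz g hg.good_right (hsg g hg.good_right (fun _ _ => rfl))
    have hag1 : ∀ u, G.Adj y u → g1 u = g u := fun u hu => hg1.agree u (fun h => h.2 (Or.inr hu))
    have hb1 : blk G g1 y c = {u} := by
      rw [← hb]
      ext w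
      rw [mem_blk, mem_blk]
      constructor
      · rintro ⟨h, h'⟩; exact ⟨h, by rw [← hag1 w h]; exact h'⟩
      · rintro ⟨h, h'⟩; exact ⟨h, by rw [hag1 w h]; exact h'⟩
    have hg1M := hg1.mono hsub (le_refl _)
    by_cases hyu : Unf G L g1 y
    · obtain ⟨g2, hg2, hc2⟩ := recol3 hL (M := M) hg1M.good_right hy hyu hc
        (fun v hv _ => hM v hv) (fun v v' hv hv' he he' => by
          have h1 : v ∈ blk G g1 y c := mem_blk.2 ⟨hv, he⟩
          have h2 : v' ∈ blk G g1 y c := mem_blk.2 ⟨hv', he'⟩
          rw [hb1] at h1 h2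
          rw [Finset.mem_singleton] at h1 h2
          rw [h1, h2])
      exact ⟨g2, ((hg.trans hg1M).trans hg2).mono (le_refl _) (by omega), hc2⟩
    · obtain ⟨p1, p2, p3⟩ := frozen_props (hL y) hg1.good_right hyu
      obtain ⟨t, htL, htz, htn⟩ := hz1
      have r1 : Reach G L M 1 g1 (Function.update g1 z t) := reach_one hg1.good_right hzM htL htn
      have hbt : ∀ w, w ≠ z → (w ∈ blk G (Function.update g1 z t) y c ↔ w ∈ blk G g1 y c) := by
        intro w hw
        rw [mem_blk, mem_blk, Function.update_of_ne hw]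
      by_cases htc : t = c
      · -- two blockers `u`, `z`
        have hzb : z ∈ blk G (Function.update g1 z t) y c := by
          rw [mem_blk, Function.update_self]; exact ⟨hyz, htc⟩
        have hcard : (blk G (Function.update g1 z t) y c).card ≤ 2 := by
          have : blk G (Function.update g1 z t) y c ⊆ {u, z} := by
            intro w hw
            by_cases hwz : w = z
            · simp [hwz]
            · rw [hbt w hwz, hb1] at hw
              simp at hw; simp [hw]
          exact (Finset.card_le_card this).trans Finset.card_le_two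
        obtain ⟨g2, hg2, hb2⟩ := reduce_blk hL hy hM 2 _ r1.good_right hcard z hzb
        have hr := ((hg.trans hg1M).trans r1).trans hg2
        obtain ⟨g3, hg3, hc3⟩ := fix_end hL hg2.good_right hy hzM hc hwz
          ((hs.reach hr) g2 hg2.good_right (fun _ _ => rfl)) hb2
        exact ⟨g3, (hr.trans hg3).mono (le_refl _) (by omega), hc3⟩
      · -- `y` is now unfrozen, blocker `u`
        have hbu : blk G (Function.update g1 z t) y c = {u} := by
          ext w
          by_cases hwz : w = z
          · subst hwz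
            rw [mem_blk, Function.update_self, Finset.mem_singleton]
            constructor
            · rintro ⟨_, h⟩; exact absurd h htc
            · intro h; exact absurd h.symm huz
          · rw [hbt w hwz, hb1]
        have hyunf : Unf G L (Function.update g1 z t) y := by
          refine ⟨g1 z, p1 z hyz, ?_, ?_⟩
          · rw [Function.update_of_ne hyz.ne]
            exact (hg1.good_right.2 y z hyz).symm
          · intro w hw
            by_cases hwz : w = z
            · subst hwz; rw [Function.update_self]; exact htz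
            · rw [Function.update_of_ne hwz]
              intro h
              exact hwz (p2 w z hw hyz h)
        obtain ⟨g2, hg2, hc2⟩ := recol3 hL (M := M) r1.good_right hy hyunf hc
          (fun v hv _ => hM v hv) (fun v v' hv hv' he he' => by
            have h1 : v ∈ blk G (Function.update g1 z t) y c := mem_blk.2 ⟨hv, he⟩
            have h2 : v' ∈ blk G (Function.update g1 z t) y c := mem_blk.2 ⟨hv', he'⟩
            rw [hbu] at h1 h2
            rw [Finset.mem_singleton] at h1 h2
            rw [h1, h2])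
        exact ⟨g2, (((hg.trans hg1M).trans r1).trans hg2).mono (le_refl _) (by omega), hc2⟩

end Pool.Agent.helper10.RC
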