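import Pool.Agent.helper10.RC.B

/-! Building a gadget state. -/

set_option linter.unusedSectionVars false
set_option linter.unusedVariables false

namespace Pool.Agent.helper10.RC

variable {V : Type*} {K : Type*} [Fintype V] [DecidableEq V] [DecidableEq K]
variable {G : SimpleGraph V} [DecidableRel G.Adj] {L : V → Finset K}

theorem blk_card_le (f : V → K) (y : V) (c : K) : (blk G f y c).card ≤ G.degree y := by
  rw [← G.card_neighborFinset_eq_degree]
  exact Finset.card_filter_le _ _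

theorem sum_blk_le (f : V → K) (y : V) (A : Finset K) :
    ∑ c ∈ A, (blk G f y c).card ≤ G.degree y := by
  rw [← Finset.card_biUnion, ← G.card_neighborFinset_eq_degree]
  · apply Finset.card_le_card
    intro u hu
    rw [Finset.mem_biUnion] at hu
    obtain ⟨c, _, hc⟩ := hu
    simpa using (mem_blk.1 hc).1
  · intro c _ c' _ hcc
    rw [Function.onFun, Finset.disjoint_left]
    intro u hu hu'
    exact hcc ((mem_blk.1 hu).2.symm.trans (mem_blk.1 hu').2)

theorem exists_few (f : V → K) (y : V) (A : Finset K) (hA : A.Nonempty) :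
    ∃ c ∈ A, A.card * (blk G f y c).card ≤ G.degree y := by
  by_contra hcon
  push Not at hcon
  have h1 : ∑ c ∈ A, G.degree y < ∑ c ∈ A, A.card * (blk G f y c).card :=
    Finset.sum_lt_sum_of_nonempty hA hcon
  rw [← Finset.mul_sum, Finset.sum_const, smul_eq_mul] at h1
  have h2 := sum_blk_le (G := G) f y A
  have h3 := Nat.mul_le_mul_left A.card h2
  omega

/-- a colour of `L y` outside `L x` with few blockers -/
theorem exists_colour (hL : ∀ v, G.degree v + 1 ≤ (L v).card) (f : V → K) {x y : V}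
    (hxt : (L x).card = G.degree x + 1) (h : ¬ L y ⊆ L x) :
    ∃ c ∈ L y, c ∉ L x ∧ (blk G f y c).card ≤ 2 * G.degree x + 2 := by
  have hA : (L y \ L x).Nonempty := by
    rw [Finset.sdiff_nonempty]; exact h
  obtain ⟨c, hc, hcc⟩ := exists_few (G := G) f y _ hA
  rw [Finset.mem_sdiff] at hc
  refine ⟨c, hc.1, hc.2, ?_⟩
  have h1 := blk_card_le (G := G) f y c
  have h2 : (L y).card ≤ (L y \ L x).card + (L x).card := Finset.card_le_card_sdiff_add_card
  have h3 := hL y
  by_contra hcon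
  push Not at hcon
  -- degree y > 2 degree x + 2, |L y \ L x| ≥ degree y - degree x
  set b := (blk G f y c).card
  set A := (L y \ L x).card
  have h4 : G.degree y ≤ A + G.degree x := by omega
  have h5 : 3 ≤ b := by omega
  have h6 : A * 3 ≤ A * b := Nat.mul_le_mul_left A h5
  omega

theorem build2 (hL : ∀ v, G.degree v + 1 ≤ (L v).card) {M : Set V} {f : V → K} (hf : Good G L f)
    {a b s : V} {c : K} {m D : ℕ} (ha : a ∈ M) (hb : b ∈ M) (hab : a ≠ b) (hnab : ¬ G.Adj a b)
    (hca : c ∈ L a) (hcb : c ∈ L b) (hMa : ∀ u, G.Adj a u → u ∈ M) (hMb : ∀ u, G.Adj b u → u ∈ M)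
    (hsa : s ≠ a) (hsb : s ≠ b) (hw1 : Wk G M m s a) (hw2 : Wk G (M \ {a}) m s b)
    (hda : G.degree a ≤ D) (hdb : G.degree b ≤ D) (hs : Src G L M f s) :
    ∃ g, Reach G L M (4 * D + 4 * m + 24) f g ∧ g a = c ∧ g b = c := by
  obtain ⟨g, hg, hga⟩ := fix hL hf ha hMa hca hsa hw1 hs
  have hsub : M \ {a} ⊆ M := Set.sdiff_subset
  have hs' : Src G L (M \ {a}) g s := (hs.reach hg).anti hsub
  obtain ⟨g', hg', hgb⟩ := fix hL hg.good_right (M := M \ {a}) (y := b) ⟨hb, by simpa using hab.symm⟩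
    (fun u hu => ⟨hMb u hu, by
      intro h; rw [Set.mem_singleton_iff] at h; subst h; exact hnab hu.symm⟩) hcb hsb hw2 hs'
  have h1 := blk_card_le (G := G) f a c
  have h2 := blk_card_le (G := G) g b c
  refine ⟨g', (hg.trans (hg'.mono hsub (le_refl _))).mono (le_refl _) (by omega), ?_, hgb⟩
  rw [hg'.agree a (by simp)]
  exact hga

/-- build the gadget state at `x` -/
theorem build (hL : ∀ v, G.degree v + 1 ≤ (L v).card) {M : Set V} {f : V → K} (hf : Good G L f)
    {x q s : V} {P : Set V} {m : ℕ} (hgad : Gad G L x q P) (hxt : (L x).card = G.degree x + 1)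
    (hP : P ⊆ M) (hx : x ∈ M) (hPn : ∀ y ∈ P, ∀ u, G.Adj y u → u ∈ M) (hsP : s ∉ P)
    (hw : Wk G M m s x) (hs : Src G L M f s) :
    ∃ g, Reach G L M (4 * G.degree x + 4 * m + 60) f g ∧ Reason G L g x P := by
  rcases hgad with ⟨y, rfl, hxy, hyq, hsub⟩ | ⟨y₁, y₂, rfl, hne, ha1, ha2, hq1, hq2, hna, hs1, hs2, c, hc1, hc2⟩
  · obtain ⟨c, hc, hcx, hcb⟩ := exists_colour (G := G) hL f hxt hsub
    have hyM : y ∈ M := hP rfl
    have hsy : s ≠ y := fun h => hsP (by simp [h])
    have hwy : Wk G M (m + 1) s y := hw.snoc hx hxy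
    obtain ⟨g, hg, hgy⟩ := fix hL hf hyM (hPn y rfl) hc hsy hwy hs
    exact ⟨g, hg.mono (le_refl _) (by omega), Or.inl ⟨y, rfl, hxy, by rw [hgy]; exact hcx⟩⟩
  · have hy1 : y₁ ∈ M := hP (by simp)
    have hy2 : y₂ ∈ M := hP (by simp)
    have hsy1 : s ≠ y₁ := fun h => hsP (by simp [h])
    have hsy2 : s ≠ y₂ := fun h => hsP (by simp [h])
    have hd1 : G.degree y₁ ≤ G.degree x := by
      have := hL y₁; have := Finset.card_le_card hs1; omega
    have hd2 : G.degree y₂ ≤ G.degree x := by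
      have := hL y₂; have := Finset.card_le_card hs2; omega
    have hM1 := hPn y₁ (by simp)
    have hM2 := hPn y₂ (by simp)
    have fin : ∀ g, g y₁ = c → g y₂ = c → Reason G L g x {y₁, y₂} := fun g h1 h2 =>
      Or.inr (Or.inl ⟨y₁, by simp, y₂, by simp, hne, ha1, ha2, by rw [h1, h2]⟩)
    have e1 : M \ {y₁, y₂} ⊆ M \ {y₁} := by
      intro u hu; exact ⟨hu.1, fun h => hu.2 (by simp at h; simp [h])⟩
    have e2 : M \ {y₁, y₂} ⊆ M \ {y₂} := by
      intro u hu; exact ⟨hu.1, fun h => hu.2 (by simp at h; simp [h])⟩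
    have hx1 : x ∈ M \ {y₁} := ⟨hx, by simpa using ha1.ne⟩
    have hx2 : x ∈ M \ {y₂} := ⟨hx, by simpa using ha2.ne⟩
    rcases hw.firstHit {y₁, y₂} with h | ⟨q', hq', hq'M, h⟩
    · -- the walk avoids `P`
      obtain ⟨g, hg, h1, h2⟩ := build2 hL hf hy1 hy2 hne hna hc1 hc2 hM1 hM2 hsy1 hsy2
        (hw.snoc hx ha1) ((h.mono e1 (le_refl _)).snoc hx1 ha2) hd1 hd2 hs
      exact ⟨g, hg.mono (le_refl _) (by omega), fin g h1 h2⟩
    · rcases hq' with rfl | hq'
      · -- first hit at `y₁`: fix `y₂` first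
        have w1 : Wk G M (m + 2) s y₂ :=
          ((h.mono Set.sdiff_subset (le_refl _)).snoc hq'M ha1.symm).snoc hx ha2
        have w2 : Wk G (M \ {y₂}) (m + 2) s q' := h.mono e2 (by omega)
        obtain ⟨g, hg, h1, h2⟩ := build2 hL hf hy2 hy1 hne.symm (fun h => hna h.symm) hc2 hc1 hM2 hM1
          hsy2 hsy1 w1 w2 hd2 hd1 hs
        exact ⟨g, hg.mono (le_refl _) (by omega), fin g h2 h1⟩
      · rw [Set.mem_singleton_iff] at hq'
        subst hq'
        have w1 : Wk G M (m + 2) s y₁ :=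
          ((h.mono Set.sdiff_subset (le_refl _)).snoc hq'M ha2.symm).snoc hx ha1
        have w2 : Wk G (M \ {y₁}) (m + 2) s q' := h.mono e1 (by omega)
        obtain ⟨g, hg, h1, h2⟩ := build2 hL hf hy1 hy2 hne hna hc1 hc2 hM1 hM2
          hsy1 hsy2 w1 w2 hd1 hd2 hs
        exact ⟨g, hg.mono (le_refl _) (by omega), fin g h1 h2⟩

end Pool.Agent.helper10.RC
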