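import Pool.Agent.helper10.RC.Defs

/-! The local lemma: existence of a gadget facing the root. -/

set_option linter.unusedSectionVars false
set_option linter.unusedVariables false

namespace Pool.Agent.helper10.RC

variable {V : Type*} {K : Type*} [Fintype V] [DecidableEq V] [DecidableEq K]
variable {G : SimpleGraph V} [DecidableRel G.Adj] {L : V → Finset K}

theorem union_count (Z : Finset V) : ∀ Z' ⊆ Z,
    (∀ z ∈ Z, (Z.filter (G.Adj z)).card + 2 ≤ (L z).card) →
    (∀ z ∈ Z, ∀ z' ∈ Z, z ≠ z' → ¬ G.Adj z z' → Disjoint (L z) (L z')) →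
    Z'.card ≤ (Z'.biUnion L).card ∧ (Z'.Nonempty → Z'.card + 1 ≤ (Z'.biUnion L).card) := by
  intro Z'
  induction Z' using Finset.strongInduction with
  | H Z' ih =>
    intro hsub h1 h2
    by_cases hne : Z'.Nonempty
    · obtain ⟨z, hz⟩ := hne
      set A := Z'.filter (fun z' => z' = z ∨ G.Adj z z') with hA
      set B := Z'.filter (fun z' => ¬ (z' = z ∨ G.Adj z z')) with hB
      have hAB : A.card + B.card = Z'.card := Finset.card_filter_add_card_filter_not _
      have hzA : z ∈ A := by simp [hA, hz]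
      have hBss : B ⊂ Z' := by
        refine (Finset.ssubset_iff_of_subset (Finset.filter_subset _ _)).2 ⟨z, hz, ?_⟩
        simp [hB]
      have ihB := (ih B hBss ((Finset.filter_subset _ _).trans hsub) h1 h2).1
      have hdis : Disjoint (L z) (B.biUnion L) := by
        rw [Finset.disjoint_biUnion_right]
        intro z' hz'
        rw [hB, Finset.mem_filter] at hz'
        push Not at hz'
        exact h2 z (hsub hz) z' (hsub hz'.1) (Ne.symm hz'.2.1) hz'.2.2
      have hsubU : L z ∪ B.biUnion L ⊆ Z'.biUnion L := by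
        intro c hc
        rw [Finset.mem_union] at hc
        rw [Finset.mem_biUnion]
        rcases hc with hc | hc
        · exact ⟨z, hz, hc⟩
        · obtain ⟨z', hz', hc⟩ := Finset.mem_biUnion.1 hc
          exact ⟨z', (Finset.filter_subset _ _) hz', hc⟩
      have hcardU := Finset.card_le_card hsubU
      rw [Finset.card_union_of_disjoint hdis] at hcardU
      have hAcard : A.card ≤ (Z.filter (G.Adj z)).card + 1 := by
        have : A ⊆ insert z (Z.filter (G.Adj z)) := by
          intro w hw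
          rw [hA, Finset.mem_filter] at hw
          rw [Finset.mem_insert, Finset.mem_filter]
          rcases hw.2 with h | h
          · exact Or.inl h
          · exact Or.inr ⟨hsub hw.1, h⟩
        exact (Finset.card_le_card this).trans (Finset.card_insert_le _ _)
      have := h1 z (hsub hz)
      exact ⟨by omega, fun _ => by omega⟩
    · rw [Finset.not_nonempty_iff_eq_empty] at hne
      subst hne
      exact ⟨by simp, fun h => absurd h (by simp)⟩

theorem local_gadget (hL : ∀ v, G.degree v + 1 ≤ (L v).card) (p : V → V) {t0 t1 t2 t3 : V}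
    (h10 : G.Adj t1 t0) (h12 : G.Adj t1 t2) (h23 : G.Adj t2 t3) (h13 : ¬ G.Adj t1 t3)
    (hne13 : t1 ≠ t3) (hne02 : t0 ≠ t2) (p1 : p t1 = t0) (p2 : p t2 = t1) (p3 : p t3 = t2)
    (tight : ∀ v, (v = t1 ∨ v = t2 ∨ v = t3 ∨ G.Adj t1 v) → (L v).card = G.degree v + 1)
    (hd : 3 ≤ G.degree t2) :
    ∃ x P, (x = t1 ∨ x = t2 ∨ x = t3 ∨ (G.Adj t1 x ∧ x ≠ t0)) ∧ Gad G L x (p x) P := by
  by_contra hcon
  push Not at hcon
  have g1 : ∀ x, (x = t1 ∨ x = t2 ∨ x = t3 ∨ (G.Adj t1 x ∧ x ≠ t0)) →
      ∀ y, G.Adj x y → y ≠ p x → L y ⊆ L x := by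
    intro x hx y hy hyp
    by_contra h
    exact hcon x {y} hx (Or.inl ⟨y, rfl, hy, hyp, h⟩)
  have g2 : ∀ x, (x = t1 ∨ x = t2 ∨ x = t3 ∨ (G.Adj t1 x ∧ x ≠ t0)) →
      ∀ y y', G.Adj x y → G.Adj x y' → y ≠ p x → y' ≠ p x → y ≠ y' → ¬ G.Adj y y' →
      ∀ c, c ∈ L y → c ∉ L y' := by
    intro x hx y y' hy hy' hyp hyp' hne hna c hc hc'
    exact hcon x {y, y'} hx (Or.inr ⟨y, y', rfl, hne, hy, hy', hyp, hyp', hna,
      g1 x hx y hy hyp, g1 x hx y' hy' hyp', c, hc, hc'⟩)
  have r1 : t1 = t1 ∨ t1 = t2 ∨ t1 = t3 ∨ (G.Adj t1 t1 ∧ t1 ≠ t0) := Or.inl rfl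
  have r2 : t2 = t1 ∨ t2 = t2 ∨ t2 = t3 ∨ (G.Adj t1 t2 ∧ t2 ≠ t0) := Or.inr (Or.inl rfl)
  have r3 : t3 = t1 ∨ t3 = t2 ∨ t3 = t3 ∨ (G.Adj t1 t3 ∧ t3 ≠ t0) := Or.inr (Or.inr (Or.inl rfl))
  have rY : ∀ y, G.Adj t1 y → y ≠ t0 → (y = t1 ∨ y = t2 ∨ y = t3 ∨ (G.Adj t1 y ∧ y ≠ t0)) :=
    fun y h h' => Or.inr (Or.inr (Or.inr ⟨h, h'⟩))
  set Y := (G.neighborFinset t1).erase t0 with hY
  have memY : ∀ y, y ∈ Y ↔ y ≠ t0 ∧ G.Adj t1 y := by intro y; simp [hY]
  have ht2Y : t2 ∈ Y := (memY t2).2 ⟨hne02.symm, h12⟩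
  have ht3Y : t3 ∉ Y := fun h => h13 ((memY t3).1 h).2
  have ht1Y : t1 ∉ Y := fun h => G.loopless.irrefl t1 ((memY t1).1 h).2
  have hYcard : Y.card + 1 = G.degree t1 := by
    rw [← G.card_neighborFinset_eq_degree, hY, Finset.card_erase_of_mem (by simpa using h10)]
    have : 0 < (G.neighborFinset t1).card := Finset.card_pos.2 ⟨t0, by simpa using h10⟩
    omega
  have T1 := tight t1 (Or.inl rfl)
  have T2 := tight t2 (Or.inr (Or.inl rfl))
  have T3 := tight t3 (Or.inr (Or.inr (Or.inl rfl)))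
  have TY : ∀ y ∈ Y, (L y).card = G.degree y + 1 :=
    fun y hy => tight y (Or.inr (Or.inr (Or.inr ((memY y).1 hy).2)))
  have hneL : ∀ v, (L v).Nonempty := fun v => by
    have := hL v; exact Finset.card_pos.1 (by omega)
  -- L t2 ⊆ L t1
  have s21 : L t2 ⊆ L t1 := g1 t1 r1 t2 h12 (by rw [p1]; exact hne02.symm)
  -- Claim A
  have clA : ∀ y ∈ Y, G.Adj t2 y → L y = L t2 := by
    intro y hy h2y
    obtain ⟨hy0, hy1⟩ := (memY y).1 hy
    apply Finset.Subset.antisymm
    · exact g1 t2 r2 y h2y (by rw [p2]; exact hy1.ne')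
    · by_cases h : t2 = p y
      · exact s21.trans (g1 y (rY y hy1 hy0) t1 hy1.symm (by rw [← h]; exact h12.ne))
      · exact g1 y (rY y hy1 hy0) t2 h2y.symm h
  set Z := Y.filter (fun y => ¬ (y = t2 ∨ G.Adj t2 y)) with hZ
  set C := Y.filter (fun y => y = t2 ∨ G.Adj t2 y) with hC
  have hCZ : C.card + Z.card = Y.card := Finset.card_filter_add_card_filter_not _
  -- degree of t2
  have hdeg2 : C.card + 1 ≤ G.degree t2 := by
    have hsub : insert t1 (insert t3 (C.erase t2)) ⊆ G.neighborFinset t2 := by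
      intro y hy
      rw [Finset.mem_insert, Finset.mem_insert, Finset.mem_erase, hC, Finset.mem_filter] at hy
      rw [SimpleGraph.mem_neighborFinset]
      rcases hy with rfl | rfl | ⟨h1, _, h2⟩
      · exact h12.symm
      · exact h23
      · exact h2.resolve_left h1
    have h1 := Finset.card_le_card hsub
    rw [Finset.card_insert_of_notMem, Finset.card_insert_of_notMem, Finset.card_erase_of_mem,
      G.card_neighborFinset_eq_degree] at h1
    · have : 0 < C.card := Finset.card_pos.2 ⟨t2, by simp [hC, ht2Y]⟩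
      omega
    · simp [hC, ht2Y]
    · intro h
      exact ht3Y ((Finset.filter_subset _ _) (Finset.mem_of_mem_erase h))
    · rw [Finset.mem_insert]
      rintro (h | h)
      · exact hne13 h
      · exact ht1Y ((Finset.filter_subset _ _) (Finset.mem_of_mem_erase h))
  have hZsub : Z ⊆ Y := Finset.filter_subset _ _
  have hdisZ : Disjoint (L t2) (Z.biUnion L) := by
    rw [Finset.disjoint_biUnion_right]
    intro z hz
    rw [hZ, Finset.mem_filter] at hz
    obtain ⟨hz0, hz1⟩ := (memY z).1 hz.1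
    push Not at hz
    rw [Finset.disjoint_left]
    exact g2 t1 r1 t2 z h12 hz1 (by rw [p1]; exact hne02.symm) (by rw [p1]; exact hz0)
      (Ne.symm hz.2.1) hz.2.2
  have hsubU : L t2 ∪ Z.biUnion L ⊆ L t1 := by
    intro c hc
    rw [Finset.mem_union] at hc
    rcases hc with hc | hc
    · exact s21 hc
    · obtain ⟨z, hz, hc⟩ := Finset.mem_biUnion.1 hc
      obtain ⟨hz0, hz1⟩ := (memY z).1 (hZsub hz)
      exact g1 t1 r1 z hz1 (by rw [p1]; exact hz0) hc
  have hcardU := Finset.card_le_card hsubU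
  rw [Finset.card_union_of_disjoint hdisZ] at hcardU
  have hcount := union_count (G := G) (L := L) Z Z (Finset.Subset.refl _)
    (by
      intro z hz
      have hzY := hZsub hz
      obtain ⟨hz0, hz1⟩ := (memY z).1 hzY
      rw [TY z hzY]
      have hsub : insert t1 (Z.filter (G.Adj z)) ⊆ G.neighborFinset z := by
        intro y hy
        rw [Finset.mem_insert, Finset.mem_filter] at hy
        rw [SimpleGraph.mem_neighborFinset]
        rcases hy with rfl | ⟨_, h⟩
        · exact hz1.symm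
        · exact h
      have h1 := Finset.card_le_card hsub
      rw [Finset.card_insert_of_notMem, G.card_neighborFinset_eq_degree] at h1
      · omega
      · intro h
        exact ht1Y (hZsub ((Finset.filter_subset _ _) h)))
    (by
      intro z hz z' hz' hne hna
      obtain ⟨hz0, hz1⟩ := (memY z).1 (hZsub hz)
      obtain ⟨hz0', hz1'⟩ := (memY z').1 (hZsub hz')
      rw [Finset.disjoint_left]
      exact g2 t1 r1 z z' hz1 hz1' (by rw [p1]; exact hz0) (by rw [p1]; exact hz0') hne hna)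
  have hZe : Z = ∅ := by
    by_contra hne
    have := hcount.2 (Finset.nonempty_iff_ne_empty.2 hne)
    omega
  have hZ0 : Z.card = 0 := by rw [hZe]; rfl
  have hadj2 : ∀ y ∈ Y, y ≠ t2 → G.Adj t2 y := by
    intro y hy hne
    by_contra h
    have : y ∈ Z := by rw [hZ, Finset.mem_filter]; exact ⟨hy, by push Not; exact ⟨hne, h⟩⟩
    rw [hZe] at this; simp at this
  have hcardS : (L t2).card = Y.card + 2 := by
    have := Finset.card_le_card s21; omega
  have hS12 : L t2 = L t1 := Finset.eq_of_subset_of_card_le s21 (by omega)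
  have hLY : ∀ y ∈ Y, L y = L t2 := by
    intro y hy
    by_cases h : y = t2
    · rw [h]
    · exact clA y hy (hadj2 y hy h)
  have hYclique : ∀ y ∈ Y, ∀ y' ∈ Y, y ≠ y' → G.Adj y y' := by
    intro y hy y' hy' hne
    by_contra hna
    obtain ⟨hz0, hz1⟩ := (memY y).1 hy
    obtain ⟨hz0', hz1'⟩ := (memY y').1 hy'
    obtain ⟨c, hc⟩ := hneL y
    exact g2 t1 r1 y y' hz1 hz1' (by rw [p1]; exact hz0) (by rw [p1]; exact hz0') hne hna c hc
      (by rw [hLY y' hy', ← hLY y hy]; exact hc)
  -- an element `s` of `Y` other than `t2`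
  have hY2 : 2 ≤ Y.card := by omega
  obtain ⟨s, hsY, hs2⟩ : ∃ s ∈ Y, s ≠ t2 := Finset.exists_mem_ne (by omega) t2
  obtain ⟨hs0, hs1⟩ := (memY s).1 hsY
  have s32 : L t3 ⊆ L t2 := g1 t2 r2 t3 h23 (by rw [p2]; exact hne13.symm)
  have hadj3 : ∀ y ∈ Y, G.Adj t3 y := by
    intro y hy
    by_cases h : y = t2
    · rw [h]; exact h23.symm
    · by_contra hna
      obtain ⟨hz0, hz1⟩ := (memY y).1 hy
      obtain ⟨c, hc⟩ := hneL t3
      have hyt3 : t3 ≠ y := fun e => ht3Y (e ▸ hy)
      exact g2 t2 r2 t3 y h23 (hadj2 y hy h) (by rw [p2]; exact hne13.symm)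
        (by rw [p2]; exact hz1.ne') hyt3 hna c hc (by rw [hLY y hy]; exact s32 hc)
  -- neighbours of `s`
  have hNs : insert t1 (insert t3 (Y.erase s)) = G.neighborFinset s := by
    apply Finset.eq_of_subset_of_card_le
    · intro y hy
      rw [Finset.mem_insert, Finset.mem_insert, Finset.mem_erase] at hy
      rw [SimpleGraph.mem_neighborFinset]
      rcases hy with rfl | rfl | ⟨h1, h2⟩
      · exact hs1.symm
      · exact (hadj3 s hsY).symm
      · exact hYclique s hsY y h2 (Ne.symm h1)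
    · rw [Finset.card_insert_of_notMem, Finset.card_insert_of_notMem, Finset.card_erase_of_mem hsY,
        G.card_neighborFinset_eq_degree]
      · have h1 := TY s hsY
        rw [hLY s hsY] at h1
        omega
      · intro h; exact ht3Y (Finset.mem_of_mem_erase h)
      · rw [Finset.mem_insert]
        rintro (h | h)
        · exact hne13 h
        · exact ht1Y (Finset.mem_of_mem_erase h)
  have hL3 : L t3 = L t2 := by
    apply Finset.Subset.antisymm s32
    rw [← hLY s hsY]
    exact g1 t3 r3 s (hadj3 s hsY) (by rw [p3]; exact hs2)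
  have hd3 : G.degree t3 = Y.card + 1 := by
    rw [hL3] at T3; omega
  obtain ⟨o, ho, hoY⟩ : ∃ o ∈ G.neighborFinset t3, o ∉ Y := by
    by_contra h
    push Not at h
    have := Finset.card_le_card (fun y hy => h y hy : G.neighborFinset t3 ⊆ Y)
    rw [G.card_neighborFinset_eq_degree] at this
    omega
  rw [SimpleGraph.mem_neighborFinset] at ho
  have hot2 : o ≠ t2 := fun e => hoY (e ▸ ht2Y)
  have hoL : L o ⊆ L t3 := g1 t3 r3 o ho (by rw [p3]; exact hot2)
  have hos : o ≠ s := fun e => hoY (e ▸ hsY)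
  have hoadj : G.Adj s o := by
    by_contra hna
    obtain ⟨c, hc⟩ := hneL o
    exact g2 t3 r3 o s ho (hadj3 s hsY) (by rw [p3]; exact hot2) (by rw [p3]; exact hs2) hos
      (fun h => hna h.symm) c hc (by rw [hLY s hsY, ← hL3]; exact hoL hc)
  have : o ∈ insert t1 (insert t3 (Y.erase s)) := by
    rw [hNs, SimpleGraph.mem_neighborFinset]; exact hoadj
  rw [Finset.mem_insert, Finset.mem_insert, Finset.mem_erase] at this
  rcases this with h | h | h
  · rw [h] at ho; exact h13 ho.symm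
  · rw [h] at ho; exact G.loopless.irrefl t3 ho
  · exact hoY h.2

end Pool.Agent.helper10.RC
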