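import Pool.Agent.helper10.RC.B2

/-! Clearing vertices in two runs simultaneously. -/

set_option linter.unusedSectionVars false
set_option linter.unusedVariables false

namespace Pool.Agent.helper10.RC

variable {V : Type*} {K : Type*} [Fintype V] [DecidableEq V] [DecidableEq K]
variable {G : SimpleGraph V} [DecidableRel G.Adj] {L : V → Finset K}

/-- clear one vertex -/
theorem clear1 (hL : ∀ v, G.degree v + 1 ≤ (L v).card) {M D : Set V} {f g : V → K} (hf : Good G L f)
    (hg : Good G L g) (hfg : ∀ u ∈ D, f u = g u) (hDM : ∀ u ∈ D, u ∉ M) {v s : V} (hv : v ∈ M)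
    (hN : ∀ u, G.Adj v u → u ∈ M ∨ u ∈ D) {m : ℕ} (hw : Wk G M m s v) (hsf : Src G L M f s)
    (hsg : Src G L M g s) :
    ∃ f' g', Reach G L M (m + 3) f f' ∧ Reach G L M (m + 3) g g' ∧ f' v = g' v := by
  classical
  obtain ⟨f1, hf1, huf⟩ := transport hL hw f hf (hsf f hf fun _ _ => rfl)
  obtain ⟨g1, hg1, hug⟩ := transport hL hw g hg (hsg g hg fun _ _ => rfl)
  have hfg1 : ∀ u ∈ D, f1 u = g1 u := fun u hu => by
    rw [hf1.agree u (hDM u hu), hg1.agree u (hDM u hu), hfg u hu]
  set ND := (G.neighborFinset v).filter (fun u => u ∈ D) with hND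
  set NM := (G.neighborFinset v).filter (fun u => ¬ u ∈ D) with hNM
  have hcard : ND.card + NM.card = G.degree v := by
    rw [← G.card_neighborFinset_eq_degree]; exact Finset.card_filter_add_card_filter_not _
  set A := L v \ ND.image f1 with hA
  have hAcard : NM.card + 1 ≤ A.card := by
    have h1 : (L v).card ≤ A.card + (ND.image f1).card := Finset.card_le_card_sdiff_add_card
    have h2 : (ND.image f1).card ≤ ND.card := Finset.card_image_le
    have h3 := hL v
    omega
  have hblk : ∀ (h : V → K), (∀ u ∈ D, f1 u = h u) →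
      ∑ c ∈ A, (blk G h v c).card ≤ NM.card := by
    intro h hh
    rw [← Finset.card_biUnion]
    · apply Finset.card_le_card
      intro u hu
      rw [Finset.mem_biUnion] at hu
      obtain ⟨c, hc, hcu⟩ := hu
      rw [mem_blk] at hcu
      rw [hNM, Finset.mem_filter]
      refine ⟨by simpa using hcu.1, fun hD => ?_⟩
      rw [hA, Finset.mem_sdiff] at hc
      apply hc.2
      rw [Finset.mem_image]
      exact ⟨u, by rw [hND, Finset.mem_filter]; exact ⟨by simpa using hcu.1, hD⟩, by
        rw [hh u hD, hcu.2]⟩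
    · intro c _ c' _ hcc
      rw [Function.onFun, Finset.disjoint_left]
      intro u hu hu'
      exact hcc ((mem_blk.1 hu).2.symm.trans (mem_blk.1 hu').2)
  have hsum : ∑ c ∈ A, ((blk G f1 v c).card + (blk G g1 v c).card) < ∑ c ∈ A, 2 := by
    rw [Finset.sum_add_distrib, Finset.sum_const, smul_eq_mul]
    have h1 := hblk f1 (fun _ _ => rfl)
    have h2 := hblk g1 hfg1
    omega
  obtain ⟨c, hcA, hc2⟩ := Finset.exists_lt_of_sum_lt hsum
  rw [hA, Finset.mem_sdiff] at hcA
  have nD : ∀ (h : V → K), (∀ u ∈ D, f1 u = h u) → ∀ u, G.Adj v u → h u = c → u ∈ M := by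
    intro h hh u hvu huc
    rcases hN u hvu with hM | hD
    · exact hM
    · exfalso
      apply hcA.2
      rw [Finset.mem_image]
      exact ⟨u, by rw [hND, Finset.mem_filter]; exact ⟨by simpa using hvu, hD⟩, by
        rw [hh u hD, huc]⟩
  have uniq : ∀ (h : V → K), (blk G h v c).card ≤ 1 → ∀ u u', G.Adj v u → G.Adj v u' →
      h u = c → h u' = c → u = u' := by
    intro h hh u u' hu hu' hc hc'
    exact Finset.card_le_one.1 hh u (mem_blk.2 ⟨hu, hc⟩) u' (mem_blk.2 ⟨hu', hc'⟩)
  obtain ⟨f2, hf2, hf2c⟩ := recol3 hL (M := M) hf1.good_right hv huf hcA.1 (nD f1 fun _ _ => rfl)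
    (uniq f1 (by omega))
  obtain ⟨g2, hg2, hg2c⟩ := recol3 hL (M := M) hg1.good_right hv hug hcA.1 (nD g1 hfg1)
    (uniq g1 (by omega))
  exact ⟨f2, g2, hf1.trans hf2, hg1.trans hg2, by rw [hf2c, hg2c]⟩

/-- clear a set of vertices, in the order of decreasing `lev` -/
theorem clearSet (hL : ∀ v, G.degree v + 1 ≤ (L v).card) (lev : V → ℕ) (s : V) (m : ℕ) : ∀ (n : ℕ)
    (W : Finset V) (M D : Set V) (f g : V → K), W.card = n → Good G L f → Good G L g →
    (∀ u ∈ D, f u = g u) → (∀ u ∈ D, u ∉ M) → (∀ u ∈ W, u ∈ M) →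
    (∀ v ∈ W, ∀ u, G.Adj v u → u ∈ M ∨ u ∈ D) →
    (∀ v ∈ W, Wk G (M \ {v' | v' ∈ W ∧ lev v ≤ lev v'}) m s v) →
    Src G L M f s → Src G L M g s →
    ∃ f' g', Reach G L M ((m + 3) * n) f f' ∧ Reach G L M ((m + 3) * n) g g' ∧
      (∀ u ∈ D, f' u = g' u) ∧ ∀ u ∈ W, f' u = g' u := by
  intro n
  induction n with
  | zero =>
    intro W M D f g hW hf hg hfg hDM hWM hN hwk hsf hsg
    have : W = ∅ := Finset.card_eq_zero.1 hW
    subst this
    exact ⟨f, g, Reach.refl _ _ hf, Reach.refl _ _ hg, hfg, by simp⟩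
  | succ n ih =>
    intro W M D f g hW hf hg hfg hDM hWM hN hwk hsf hsg
    have hne : W.Nonempty := Finset.card_pos.1 (by omega)
    obtain ⟨v, hv, hmax⟩ := Finset.exists_max_image W lev hne
    obtain ⟨f1, g1, hf1, hg1, hfgv⟩ := clear1 hL hf hg hfg hDM (hWM v hv) (hN v hv)
      ((hwk v hv).mono Set.sdiff_subset (le_refl _)) hsf hsg
    have hsub : M \ {v} ⊆ M := Set.sdiff_subset
    obtain ⟨f2, g2, hf2, hg2, hD2, hW2⟩ := ih (W.erase v) (M \ {v}) (D ∪ {v}) f1 g1
      (by rw [Finset.card_erase_of_mem hv]; omega) hf1.good_right hg1.good_right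
      (by
        rintro u (hu | hu)
        · rw [hf1.agree u (hDM u hu), hg1.agree u (hDM u hu), hfg u hu]
        · rw [Set.mem_singleton_iff] at hu; rw [hu]; exact hfgv)
      (by
        rintro u (hu | hu)
        · exact fun h => hDM u hu h.1
        · exact fun h => h.2 hu)
      (fun u hu => ⟨hWM u (Finset.mem_of_mem_erase hu), by
        simpa using Finset.ne_of_mem_erase hu⟩)
      (fun w hw u hwu => by
        by_cases huv : u = v
        · exact Or.inr (Or.inr (by simp [huv]))
        · rcases hN w (Finset.mem_of_mem_erase hw) u hwu with h | h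
          · exact Or.inl ⟨h, by simpa using huv⟩
          · exact Or.inr (Or.inl h))
      (fun w hw => by
        have hw' := Finset.mem_of_mem_erase hw
        refine (hwk w hw').mono ?_ (le_refl _)
        intro u hu
        refine ⟨⟨hu.1, ?_⟩, fun h => hu.2 ⟨Finset.mem_of_mem_erase h.1, h.2⟩⟩
        intro h
        rw [Set.mem_singleton_iff] at h
        subst h
        exact hu.2 ⟨hv, hmax w hw'⟩)
      ((hsf.reach hf1).anti hsub) ((hsg.reach hg1).anti hsub)
    refine ⟨f2, g2, ?_, ?_, fun u hu => hD2 u (Or.inl hu), ?_⟩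
    · exact (hf1.trans (hf2.mono hsub (le_refl _))).mono (le_refl _) (by ring_nf; omega)
    · exact (hg1.trans (hg2.mono hsub (le_refl _))).mono (le_refl _) (by ring_nf; omega)
    · intro u hu
      by_cases huv : u = v
      · exact hD2 u (Or.inr (by simp [huv]))
      · exact hW2 u (Finset.mem_erase.2 ⟨huv, hu⟩)

end Pool.Agent.helper10.RC
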