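import Mathlib

/-! Recolouring project (MP_e02c34_co): basic definitions. -/

namespace Pool.Agent.helper10.RC

variable {V : Type*} {K : Type*}

/-- proper `L`-colourings -/
def Good (G : SimpleGraph V) (L : V → Finset K) (f : V → K) : Prop :=
  (∀ v, f v ∈ L v) ∧ ∀ u v, G.Adj u v → f u ≠ f v

/-- `Reach G L M k f g`: from the colouring `f` one gets to `g` by at most `k` recolouring steps, each of a
vertex of `M`, all colourings on the way being proper. -/
inductive Reach (G : SimpleGraph V) (L : V → Finset K) (M : Set V) : ℕ → (V → K) → (V → K) → Prop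
  | refl (k : ℕ) (f : V → K) : Good G L f → Reach G L M k f f
  | tail (k : ℕ) (f g h : V → K) (v : V) : Reach G L M k f g → Good G L h → v ∈ M →
      (∀ u, u ≠ v → h u = g u) → Reach G L M (k + 1) f h

/-- `v` has a spare colour in `f` -/
def Unf (G : SimpleGraph V) (L : V → Finset K) (f : V → K) (v : V) : Prop :=
  ∃ c ∈ L v, c ≠ f v ∧ ∀ u, G.Adj v u → f u ≠ c

/-- walks all of whose vertices but the last lie in `S`, of length at most `m` -/
inductive Wk (G : SimpleGraph V) (S : Set V) : ℕ → V → V → Prop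
  | refl (m : ℕ) (a : V) : Wk G S m a a
  | step (m : ℕ) (a b c : V) : a ∈ S → G.Adj a b → Wk G S m b c → Wk G S (m + 1) a c

/-- `x` has a reason in `P` (a set of vertices which is not going to be moved) for being unfrozen -/
def Reason [Fintype V] (G : SimpleGraph V) [DecidableRel G.Adj] (L : V → Finset K) (f : V → K) (x : V) (P : Set V) : Prop :=
  (∃ y ∈ P, G.Adj x y ∧ f y ∉ L x) ∨
  (∃ y₁ ∈ P, ∃ y₂ ∈ P, y₁ ≠ y₂ ∧ G.Adj x y₁ ∧ G.Adj x y₂ ∧ f y₁ = f y₂) ∨
  G.degree x + 2 ≤ (L x).card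

/-- `s` stays unfrozen as long as only vertices of `M` are moved -/
def Src (G : SimpleGraph V) (L : V → Finset K) (M : Set V) (f : V → K) (s : V) : Prop :=
  ∀ f', Good G L f' → (∀ u, u ∉ M → f' u = f u) → Unf G L f' s

/-- gadget at `x` not using the neighbour `q` -/
def Gad (G : SimpleGraph V) (L : V → Finset K) (x q : V) (P : Set V) : Prop :=
  (∃ y, P = {y} ∧ G.Adj x y ∧ y ≠ q ∧ ¬ L y ⊆ L x) ∨
  (∃ y₁ y₂, P = {y₁, y₂} ∧ y₁ ≠ y₂ ∧ G.Adj x y₁ ∧ G.Adj x y₂ ∧ y₁ ≠ q ∧ y₂ ≠ q ∧ ¬ G.Adj y₁ y₂ ∧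
    L y₁ ⊆ L x ∧ L y₂ ⊆ L x ∧ ∃ c, c ∈ L y₁ ∧ c ∈ L y₂)

end Pool.Agent.helper10.RC
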