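import Pool.Agent.helper10.RC.D
import Pool.Agent.helper10.RC.C

/-! Levels, bases, centres, gadgets. -/

set_option linter.unusedSectionVars false
set_option linter.unusedVariables false

namespace Pool.Agent.helper10.RC

variable {V : Type*} {K : Type*} [Fintype V] [DecidableEq V] [DecidableEq K]
variable {G : SimpleGraph V} [DecidableRel G.Adj] {L : V → Finset K}

/-! ### gadget facing the start of a path -/

theorem gadget_on_path (hL : ∀ v, G.degree v + 1 ≤ (L v).card) (g : ℕ → V)
    (hadj : ∀ i < 5, G.Adj (g i) (g (i + 1)))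
    (hna : ∀ i j, j ≤ 5 → i + 2 ≤ j → ¬ G.Adj (g i) (g j) ∧ g i ≠ g j)
    (tight : ∀ v, (v = g 3 ∨ v = g 4 ∨ v = g 5 ∨ G.Adj (g 3) v) → (L v).card = G.degree v + 1)
    (hd : 3 ≤ G.degree (g 4)) :
    ∃ x q P, (x = g 3 ∨ x = g 4 ∨ x = g 5 ∨ (G.Adj (g 3) x ∧ x ≠ g 2)) ∧ Gad G L x q P ∧
      ∃ j ≤ 4, G.Adj x (g j) ∧ ∀ i ≤ j, g i ∉ P := by
  classical
  -- parent function
  let p : V → V := fun x => if h : ∃ i, G.Adj x (g i) then g (Nat.find h) else g 0
  have pval : ∀ x i, G.Adj x (g i) → (∀ j < i, ¬ G.Adj x (g j)) → p x = g i := by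
    intro x i h h'
    have hex : ∃ i, G.Adj x (g i) := ⟨i, h⟩
    have : Nat.find hex = i := (Nat.find_eq_iff hex).2 ⟨h, h'⟩
    simp only [p, dif_pos hex, this]
  have p3 : p (g 3) = g 2 := by
    apply pval _ _ (hadj 2 (by norm_num)).symm
    intro j hj h
    exact (hna j 3 (by norm_num) (by omega)).1 h.symm
  have p4 : p (g 4) = g 3 := by
    apply pval _ _ (hadj 3 (by norm_num)).symm
    intro j hj h
    exact (hna j 4 (by norm_num) (by omega)).1 h.symm
  have p5 : p (g 5) = g 4 := by
    apply pval _ _ (hadj 4 (by norm_num)).symm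
    intro j hj h
    exact (hna j 5 (by norm_num) (by omega)).1 h.symm
  obtain ⟨x, P, hx, hgad⟩ := local_gadget (G := G) (L := L) hL p (t0 := g 2) (t1 := g 3) (t2 := g 4)
    (t3 := g 5) (hadj 2 (by norm_num)).symm (hadj 3 (by norm_num)) (hadj 4 (by norm_num))
    (hna 3 5 (by norm_num) (by norm_num)).1 (hna 3 5 (by norm_num) (by norm_num)).2
    (hna 2 4 (by norm_num) (by norm_num)).2 p3 p4 p5 tight hd
  refine ⟨x, p x, P, hx, hgad, ?_⟩
  have hex : ∃ i, G.Adj x (g i) := by
    rcases hx with rfl | rfl | rfl | ⟨h, _⟩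
    · exact ⟨2, (hadj 2 (by norm_num)).symm⟩
    · exact ⟨3, (hadj 3 (by norm_num)).symm⟩
    · exact ⟨4, (hadj 4 (by norm_num)).symm⟩
    · exact ⟨3, h.symm⟩
  have hj4 : Nat.find hex ≤ 4 := by
    rcases hx with rfl | rfl | rfl | ⟨h, _⟩
    · exact (Nat.find_min' hex (hadj 2 (by norm_num)).symm).trans (by norm_num)
    · exact (Nat.find_min' hex (hadj 3 (by norm_num)).symm).trans (by norm_num)
    · exact (Nat.find_min' hex (hadj 4 (by norm_num)).symm)
    · exact (Nat.find_min' hex h.symm).trans (by norm_num)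
  have hpx : p x = g (Nat.find hex) := by simp only [p, dif_pos hex]
  have hP : ∀ y ∈ P, G.Adj x y ∧ y ≠ p x := by
    rcases hgad with ⟨y, rfl, hy, hyq, _⟩ | ⟨y₁, y₂, rfl, _, h1, h2, h3, h4, _⟩
    · intro z hz; rw [Set.mem_singleton_iff] at hz; subst hz; exact ⟨hy, hyq⟩
    · intro z hz
      rcases hz with hz | hz
      · subst hz; exact ⟨h1, h3⟩
      · rw [Set.mem_singleton_iff] at hz; subst hz; exact ⟨h2, h4⟩
  refine ⟨Nat.find hex, hj4, Nat.find_spec hex, ?_⟩
  intro i hi hiP
  rcases Nat.lt_or_eq_of_le hi with h | h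
  · exact Nat.find_min hex h (hP _ hiP).1
  · apply (hP _ hiP).2
    rw [hpx, h]

/-- walk down a path -/
theorem path_down (g : ℕ → V) {n : ℕ} (hadj : ∀ i < n, G.Adj (g i) (g (i + 1))) {S : Set V}
    (hS : ∀ i, 1 ≤ i → i ≤ n → g i ∈ S) : Wk G S n (g n) (g 0) := by
  induction n with
  | zero => exact Wk.refl _ _
  | succ n ih =>
    exact Wk.step _ _ _ _ (hS (n + 1) (by omega) (le_refl _)) (hadj n (by omega)).symm
      (ih (fun i hi => hadj i (by omega)) (fun i h1 h2 => hS i h1 (by omega)))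

/-- walk up a path -/
theorem path_up (g : ℕ → V) {n : ℕ} (hadj : ∀ i < n, G.Adj (g i) (g (i + 1))) {S : Set V}
    (hS : ∀ i, i < n → g i ∈ S) : Wk G S n (g 0) (g n) := by
  induction n with
  | zero => exact Wk.refl _ _
  | succ n ih =>
    exact (ih (fun i hi => hadj i (by omega)) (fun i hi => hS i (by omega))).snoc
      (hS n (by omega)) (hadj n (by omega))

/-! ### levels -/

structure LevelData (G : SimpleGraph V) (w : V) (lev : V → ℕ) (par : V → V) : Prop where
  adj : ∀ u v, G.Adj u v → lev u ≤ lev v + 1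
  par_adj : ∀ v, lev v ≠ 0 → G.Adj v (par v)
  par_lev : ∀ v, lev v ≠ 0 → lev (par v) + 1 = lev v
  zero : ∀ v, lev v = 0 ↔ v = w

/-- vertices of level `< t` -/
def FF (lev : V → ℕ) (t : ℕ) : Set V := {u | lev u < t}

theorem lev_iter {w : V} {lev : V → ℕ} {par : V → V} (h : LevelData G w lev par) (v : V) :
    ∀ i, i ≤ lev v → lev (par^[i] v) + i = lev v := by
  intro i
  induction i with
  | zero => intro _; simp
  | succ i ih =>
    intro hi
    rw [Function.iterate_succ_apply']
    have h1 := ih (by omega)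
    have h2 := h.par_lev (par^[i] v) (by omega)
    omega

theorem adj_iter {w : V} {lev : V → ℕ} {par : V → V} (h : LevelData G w lev par) (v : V) (i : ℕ)
    (hi : i < lev v) : G.Adj (par^[i] v) (par^[i + 1] v) := by
  rw [Function.iterate_succ_apply']
  have h1 := lev_iter h v i (by omega)
  exact h.par_adj _ (by omega)

/-- base vertex -/
def base (lev : V → ℕ) (par : V → V) (v : V) : V := par^[lev v % 16 + 8] v

theorem lev_base {w : V} {lev : V → ℕ} {par : V → V} (h : LevelData G w lev par) {v : V}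
    (hv : 16 ≤ lev v) : lev (base lev par v) + 8 = 16 * (lev v / 16) := by
  have h1 := lev_iter h v (lev v % 16 + 8) (by omega)
  unfold base
  omega

/-- properties of the gadgets attached to a centre `b` -/
structure GadgetAt (G : SimpleGraph V) [DecidableRel G.Adj] (L : V → Finset K) (lev : V → ℕ) (b : V)
    (x x' : V) (P P' : Set V) : Prop where
  gad : ∃ q, Gad G L x q P
  gad' : ∃ q, Gad G L x' q P'
  tight : (L x).card = G.degree x + 1
  tight' : (L x').card = G.degree x' + 1
  levP : ∀ z ∈ insert x P, lev b ≤ lev z + 6 ∧ lev z + 1 ≤ lev b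
  levP' : ∀ z ∈ insert x' P', lev b + 1 ≤ lev z ∧ lev z ≤ lev b + 6
  levx : lev b ≤ lev x + 5 ∧ lev x + 2 ≤ lev b
  levx' : lev b + 2 ≤ lev x' ∧ lev x' ≤ lev b + 5
  walk : Wk G (FF lev (lev b + 8) \ (P ∪ P')) 5 x b
  walkr : Wk G (FF lev (lev b + 8) \ (P ∪ P')) 5 b x
  walk' : Wk G (FF lev (lev b + 8) \ (P ∪ P')) 5 x' b
  walkr' : Wk G (FF lev (lev b + 8) \ (P ∪ P')) 5 b x'
  adjP : ∀ y ∈ P, G.Adj x y
  adjP' : ∀ y ∈ P', G.Adj x' y

theorem Gad.adj {x q : V} {P : Set V} (h : Gad G L x q P) : ∀ y ∈ P, G.Adj x y := by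
  rcases h with ⟨y, rfl, hy, hyq, _⟩ | ⟨y₁, y₂, rfl, _, h1, h2, h3, h4, _⟩
  · intro z hz; rw [Set.mem_singleton_iff] at hz; subst hz; exact hy
  · intro z hz
    rcases hz with hz | hz
    · subst hz; exact h1
    · rw [Set.mem_singleton_iff] at hz; subst hz; exact h2

theorem exists_gadgets (hL : ∀ v, G.degree v + 1 ≤ (L v).card) {w : V} {lev : V → ℕ} {par : V → V}
    (h : LevelData G w lev par) (htight : ∀ v, v ≠ w → (L v).card = G.degree v + 1)
    (hd : ∀ v, 3 ≤ G.degree v) {v0 : V} (hv0 : 16 ≤ lev v0) :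
    ∃ x x' P P', GadgetAt G L lev (base lev par v0) x x' P P' := by
  set b := base lev par v0 with hb
  have hlb := lev_base h hv0
  rw [← hb] at hlb
  have hlb8 : 8 ≤ lev b := by omega
  have nadj : ∀ u v, lev u + 2 ≤ lev v → ¬ G.Adj u v := by
    intro u v huv ha
    have := h.adj v u ha.symm
    omega
  have tt : ∀ v, lev v ≠ 0 → (L v).card = G.degree v + 1 := fun v hv =>
    htight v fun e => hv ((h.zero v).2 e)
  -- downward path
  have l1 : ∀ i ≤ 5, lev (par^[i] b) + i = lev b := fun i hi => lev_iter h b i (by omega)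
  obtain ⟨x, q, P, hx, hgad, j, hj, hxj, hjP⟩ := gadget_on_path (G := G) (L := L) hL
    (fun i => par^[i] b) (fun i hi => adj_iter h b i (by omega))
    (fun i j hj hij => by
      have h1 := l1 i (by omega)
      have h2 := l1 j hj
      refine ⟨fun ha => nadj _ _ (by show lev (par^[j] b) + 2 ≤ lev (par^[i] b); omega) ha.symm, fun e => ?_⟩
      have : lev (par^[i] b) = lev (par^[j] b) := congrArg lev e
      omega)
    (fun v hv => by
      apply tt
      have e3 := l1 3 (by norm_num)
      have e4 := l1 4 (by norm_num)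
      have e5 := l1 5 (by norm_num)
      rcases hv with rfl | rfl | rfl | hv
      · omega
      · omega
      · omega
      · have := h.adj _ _ hv
        omega)
    (hd _)
  -- upward path
  set e := lev v0 % 16 + 8 with he
  have hbe : par^[e] v0 = b := rfl
  have l2 : ∀ i ≤ 5, lev (par^[e - i] v0) = lev b + i := by
    intro i hi
    have h1 := lev_iter h v0 (e - i) (by omega)
    have h2 := lev_iter h v0 e (by omega)
    rw [hbe] at h2
    omega
  have adj2 : ∀ i < 5, G.Adj (par^[e - i] v0) (par^[e - (i + 1)] v0) := by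
    intro i hi
    have := adj_iter h v0 (e - (i + 1)) (by omega)
    rw [show e - (i + 1) + 1 = e - i by omega] at this
    exact this.symm
  obtain ⟨x', q', P', hx', hgad', j', hj', hxj', hjP'⟩ := gadget_on_path (G := G) (L := L) hL
    (fun i => par^[e - i] v0) adj2
    (fun i j hj hij => by
      have h1 := l2 i (by omega)
      have h2 := l2 j hj
      refine ⟨fun ha => nadj _ _ (by
        show lev (par^[e - i] v0) + 2 ≤ lev (par^[e - j] v0); omega) ha, fun e' => ?_⟩
      have : lev (par^[e - i] v0) = lev (par^[e - j] v0) := congrArg lev e'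
      omega)
    (fun v hv => by
      apply tt
      have e3 := l2 3 (by norm_num)
      have e4 := l2 4 (by norm_num)
      have e5 := l2 5 (by norm_num)
      rcases hv with rfl | rfl | rfl | hv
      · omega
      · omega
      · omega
      · have := h.adj _ _ hv
        omega)
    (hd _)
  -- levels
  have lx : lev b ≤ lev x + 5 ∧ lev x + 2 ≤ lev b := by
    have e3 := l1 3 (by norm_num)
    have e4 := l1 4 (by norm_num)
    have e5 := l1 5 (by norm_num)
    rcases hx with rfl | rfl | rfl | ⟨hv, _⟩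
    · omega
    · omega
    · omega
    · have h1 := h.adj _ _ hv
      have h2 := h.adj _ _ hv.symm
      omega
  have lx' : lev b + 2 ≤ lev x' ∧ lev x' ≤ lev b + 5 := by
    have e3 := l2 3 (by norm_num)
    have e4 := l2 4 (by norm_num)
    have e5 := l2 5 (by norm_num)
    rcases hx' with rfl | rfl | rfl | ⟨hv, _⟩
    · omega
    · omega
    · omega
    · have h1 := h.adj _ _ hv
      have h2 := h.adj _ _ hv.symm
      omega
  have aP := hgad.adj
  have aP' := hgad'.adj
  have lP : ∀ z ∈ insert x P, lev b ≤ lev z + 6 ∧ lev z + 1 ≤ lev b := by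
    intro z hz
    rcases hz with rfl | hz
    · omega
    · have h1 := h.adj _ _ (aP z hz)
      have h2 := h.adj _ _ (aP z hz).symm
      omega
  have lP' : ∀ z ∈ insert x' P', lev b + 1 ≤ lev z ∧ lev z ≤ lev b + 6 := by
    intro z hz
    rcases hz with rfl | hz
    · omega
    · have h1 := h.adj _ _ (aP' z hz)
      have h2 := h.adj _ _ (aP' z hz).symm
      omega
  have xP : x ∉ P := fun hh => G.loopless.irrefl x (aP x hh)
  have xP' : x' ∉ P' := fun hh => G.loopless.irrefl x' (aP' x' hh)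
  have xnP' : x ∉ P' := fun hh => by have := lP' x (Or.inr hh); omega
  have x'nP : x' ∉ P := fun hh => by have := lP x' (Or.inr hh); omega
  have inS : ∀ i ≤ j, par^[i] b ∈ FF lev (lev b + 8) \ (P ∪ P') := by
    intro i hi
    have h1 := l1 i (by omega)
    refine ⟨?_, ?_⟩
    · show lev (par^[i] b) < lev b + 8
      omega
    · rintro (hh | hh)
      · exact hjP i hi hh
      · have := lP' _ (Or.inr hh)
        omega
  have inS' : ∀ i ≤ j', par^[e - i] v0 ∈ FF lev (lev b + 8) \ (P ∪ P') := by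
    intro i hi
    have h1 := l2 i (by omega)
    refine ⟨?_, ?_⟩
    · show lev (par^[e - i] v0) < lev b + 8
      omega
    · rintro (hh | hh)
      · have := lP _ (Or.inr hh)
        omega
      · exact hjP' i hi hh
  have xS : x ∈ FF lev (lev b + 8) \ (P ∪ P') := ⟨by show lev x < lev b + 8; omega, by
    rintro (hh | hh)
    · exact xP hh
    · exact xnP' hh⟩
  have x'S : x' ∈ FF lev (lev b + 8) \ (P ∪ P') := ⟨by show lev x' < lev b + 8; omega, by
    rintro (hh | hh)
    · exact x'nP hh
    · exact xP' hh⟩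
  have w1 : Wk G (FF lev (lev b + 8) \ (P ∪ P')) 5 x b := by
    have hpd := path_down (G := G) (fun i => par^[i] b) (n := j)
      (fun i hi => adj_iter h b i (by omega)) (S := FF lev (lev b + 8) \ (P ∪ P'))
      (fun i _ hi => inS i hi)
    exact (Wk.step _ _ _ _ xS hxj hpd).mono (le_refl _) (by omega)
  have w1' : Wk G (FF lev (lev b + 8) \ (P ∪ P')) 5 x' b := by
    have hpd := path_down (G := G) (fun i => par^[e - i] v0) (n := j')
      (fun i hi => adj2 i (by omega)) (S := FF lev (lev b + 8) \ (P ∪ P'))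
      (fun i _ hi => inS' i hi)
    exact (Wk.step _ _ _ _ x'S hxj' hpd).mono (le_refl _) (by omega)
  have hbS : b ∈ FF lev (lev b + 8) \ (P ∪ P') := inS 0 (Nat.zero_le _)
  refine ⟨x, x', P, P', ⟨⟨q, hgad⟩, ⟨q', hgad'⟩, tt x (by omega), tt x' (by omega), lP, lP', lx, lx',
    w1, w1.symm hbS, w1', w1'.symm hbS, aP, aP'⟩⟩

end Pool.Agent.helper10.RC
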