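import Pool.Agent.helper10.RC.E

/-! Centres, the set-up, charges. -/

set_option linter.unusedSectionVars false
set_option linter.unusedVariables false

namespace Pool.Agent.helper10.RC

variable {V : Type*} {K : Type*} [Fintype V] [DecidableEq V] [DecidableEq K]
variable {G : SimpleGraph V} [DecidableRel G.Adj] {L : V → Finset K}

theorem exists_net (r : V → V → Prop) (hrefl : ∀ a, r a a) (hsymm : ∀ a b, r a b → r b a)
    (A : Finset V) : ∃ C ⊆ A, (∀ a ∈ C, ∀ b ∈ C, a ≠ b → ¬ r a b) ∧ ∀ a ∈ A, ∃ c ∈ C, r c a := by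
  classical
  induction A using Finset.induction_on with
  | empty => exact ⟨∅, by simp, by simp, by simp⟩
  | insert a A ha ih =>
    obtain ⟨C, hC, h1, h2⟩ := ih
    by_cases h : ∃ c ∈ C, r c a
    · refine ⟨C, hC.trans (Finset.subset_insert _ _), h1, ?_⟩
      intro b hb
      rcases Finset.mem_insert.1 hb with rfl | hb
      · exact h
      · exact h2 b hb
    · push Not at h
      refine ⟨insert a C, Finset.insert_subset_insert _ hC, ?_, ?_⟩
      · intro x hx y hy hxy
        rcases Finset.mem_insert.1 hx with rfl | hx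
        · rcases Finset.mem_insert.1 hy with rfl | hy
          · exact absurd rfl hxy
          · exact fun hr => h y hy (hsymm _ _ hr)
        · rcases Finset.mem_insert.1 hy with hy' | hy
          · rw [hy']
            exact h x hx
          · exact h1 x hx y hy hxy
      · intro b hb
        rcases Finset.mem_insert.1 hb with rfl | hb
        · exact ⟨b, Finset.mem_insert_self _ _, hrefl b⟩
        · obtain ⟨c, hc, hr⟩ := h2 b hb
          exact ⟨c, Finset.mem_insert_of_mem hc, hr⟩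

/-- all the static data -/
structure Setup (G : SimpleGraph V) [DecidableRel G.Adj] (L : V → Finset K) (w : V) where
  lev : V → ℕ
  par : V → V
  ld : LevelData G w lev par
  cen : V → V
  X : V → V
  X' : V → V
  P : V → Set V
  P' : V → Set V
  cen_congr : ∀ v v', base lev par v = base lev par v' → cen v = cen v'
  cen_base : ∀ v, 16 ≤ lev v → lev (cen v) = lev (base lev par v)
  cen_walk : ∀ v, 16 ≤ lev v → Wk G (FF lev (lev (cen v) + 8)) 14 (cen v) (base lev par v)
  cen_sep : ∀ v v', 16 ≤ lev v → 16 ≤ lev v' → cen v ≠ cen v' → lev (cen v) = lev (cen v') →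
    ¬ Wk G (FF lev (lev (cen v) + 8)) 14 (cen v) (cen v')
  gad : ∀ v, 16 ≤ lev v → GadgetAt G L lev (cen v) (X (cen v)) (X' (cen v)) (P (cen v)) (P' (cen v))

theorem exists_setup (hL : ∀ v, G.degree v + 1 ≤ (L v).card) {w : V} {lev : V → ℕ} {par : V → V}
    (h : LevelData G w lev par) (htight : ∀ v, v ≠ w → (L v).card = G.degree v + 1)
    (hd : ∀ v, 3 ≤ G.degree v) : Nonempty (Setup G L w) := by
  classical
  let r : V → V → Prop := fun a b => lev a = lev b ∧ Wk G (FF lev (lev a + 8)) 14 a b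
  obtain ⟨C, hCA, hC1, hC2⟩ := exists_net r (fun a => ⟨rfl, Wk.refl _ _⟩)
    (fun a b hab => ⟨hab.1.symm, by
      rw [← hab.1]
      exact hab.2.symm (by show lev b < lev a + 8; omega)⟩)
    ((Finset.univ.filter (fun v => 16 ≤ lev v)).image (base lev par))
  set A := (Finset.univ.filter (fun v => 16 ≤ lev v)).image (base lev par) with hA
  have hmemA : ∀ v, 16 ≤ lev v → base lev par v ∈ A := fun v hv =>
    Finset.mem_image.2 ⟨v, by simpa using hv, rfl⟩
  have hbase : ∀ c ∈ C, ∃ v0, 16 ≤ lev v0 ∧ base lev par v0 = c := by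
    intro c hc
    obtain ⟨v0, hv0, he⟩ := Finset.mem_image.1 (hCA hc)
    exact ⟨v0, by simpa using hv0, he⟩
  have hgad : ∀ c ∈ C, ∃ x x' P P', GadgetAt G L lev c x x' P P' := by
    intro c hc
    obtain ⟨v0, hv0, rfl⟩ := hbase c hc
    exact exists_gadgets hL h htight hd hv0
  let cen0 : V → V := fun z => if hz : z ∈ A then (hC2 z hz).choose else z
  let cen : V → V := fun v => cen0 (base lev par v)
  have hcen : ∀ v (hv : 16 ≤ lev v), cen v ∈ C ∧ r (cen v) (base lev par v) := by
    intro v hv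
    have : cen v = (hC2 _ (hmemA v hv)).choose := by simp only [cen, cen0, dif_pos (hmemA v hv)]
    rw [this]
    exact (hC2 _ (hmemA v hv)).choose_spec
  let X : V → V := fun c => if hc : c ∈ C then (hgad c hc).choose else c
  let X' : V → V := fun c => if hc : c ∈ C then (hgad c hc).choose_spec.choose else c
  let P : V → Set V := fun c => if hc : c ∈ C then (hgad c hc).choose_spec.choose_spec.choose else ∅
  let P' : V → Set V := fun c =>
    if hc : c ∈ C then (hgad c hc).choose_spec.choose_spec.choose_spec.choose else ∅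
  have hG : ∀ c ∈ C, GadgetAt G L lev c (X c) (X' c) (P c) (P' c) := by
    intro c hc
    have := (hgad c hc).choose_spec.choose_spec.choose_spec.choose_spec
    simpa only [X, X', P, P', dif_pos hc] using this
  refine ⟨⟨lev, par, h, cen, X, X', P, P', ?_, ?_, ?_, ?_, ?_⟩⟩
  · intro v v' hv
    show cen0 _ = cen0 _
    rw [hv]
  · intro v hv; exact (hcen v hv).2.1
  · intro v hv; exact (hcen v hv).2.2
  · intro v v' hv hv' hne hl hw
    exact hC1 _ (hcen v hv).1 _ (hcen v' hv').1 hne ⟨hl, hw⟩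
  · intro v hv
    exact hG _ (hcen v hv).1

/-- bound for the sum of degrees -/
theorem sum_degree_le (S : Finset V) (X : V → V)
    (h : ∀ b ∈ S, ∀ b' ∈ S, b ≠ b' → ∀ u, G.Adj (X b) u → ¬ G.Adj (X b') u) :
    ∑ b ∈ S, G.degree (X b) ≤ Fintype.card V := by
  calc ∑ b ∈ S, G.degree (X b) = ∑ b ∈ S, (G.neighborFinset (X b)).card := by
        simp [G.card_neighborFinset_eq_degree]
    _ = (S.biUnion fun b => G.neighborFinset (X b)).card := by
        rw [Finset.card_biUnion]
        intro b hb b' hb' hne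
        rw [Function.onFun, Finset.disjoint_left]
        intro u hu hu'
        rw [SimpleGraph.mem_neighborFinset] at hu hu'
        exact h b hb b' hb' hne u hu hu'
    _ ≤ Fintype.card V := Finset.card_le_univ _

namespace Setup

variable {w : V} (σ : Setup G L w)

/-- `b` is a centre -/
def IsC (b : V) : Prop := ∃ v, 16 ≤ σ.lev v ∧ σ.cen v = b

theorem IsC.gad {σ : Setup G L w} {b : V} (hb : σ.IsC b) :
    GadgetAt G L σ.lev b (σ.X b) (σ.X' b) (σ.P b) (σ.P' b) := by
  obtain ⟨v, hv, rfl⟩ := hb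
  exact σ.gad v hv

theorem IsC.lev {σ : Setup G L w} {b : V} (hb : σ.IsC b) : 8 ≤ σ.lev b ∧ σ.lev b % 16 = 8 := by
  obtain ⟨v, hv, rfl⟩ := hb
  have h1 := lev_base σ.ld hv
  have h2 := σ.cen_base v hv
  omega

theorem sep {b b' : V} (hb : σ.IsC b) (hb' : σ.IsC b') (hne : b ≠ b') (hl : σ.lev b = σ.lev b') :
    ¬ Wk G (FF σ.lev (σ.lev b + 8)) 14 b b' := by
  obtain ⟨v, hv, rfl⟩ := hb
  obtain ⟨v', hv', rfl⟩ := hb'
  exact σ.cen_sep v v' hv hv' hne hl

/-- no common neighbour (or equality, or adjacency) between the zones of different centres: a general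
separation statement. `z` near `b`, `z'` near `b'` -/
theorem zone_sep {b b' : V} (hb : σ.IsC b) (hb' : σ.IsC b') (hne : b ≠ b') {z z' : V}
    (hz : Wk G (FF σ.lev (σ.lev b + 8)) 7 b z) (hz' : Wk G (FF σ.lev (σ.lev b' + 8)) 7 b' z')
    (hzl : σ.lev b ≤ σ.lev z + 7 ∧ σ.lev z ≤ σ.lev b + 7)
    (hzl' : σ.lev b' ≤ σ.lev z' + 7 ∧ σ.lev z' ≤ σ.lev b' + 7) : z ≠ z' := by
  rintro rfl
  have h1 := hb.lev
  have h2 := hb'.lev
  have hl : σ.lev b = σ.lev b' := by omega
  rw [← hl] at hz'
  have hzS : z ∈ FF σ.lev (σ.lev b + 8) := by show σ.lev z < σ.lev b + 8; omega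
  exact σ.sep hb hb' hne hl ((hz.trans (hz'.symm hzS)))

theorem walk_X {b : V} (hb : σ.IsC b) : Wk G (FF σ.lev (σ.lev b + 8)) 5 b (σ.X b) :=
  hb.gad.walkr.mono Set.sdiff_subset (le_refl _)

theorem walk_X' {b : V} (hb : σ.IsC b) : Wk G (FF σ.lev (σ.lev b + 8)) 5 b (σ.X' b) :=
  hb.gad.walkr'.mono Set.sdiff_subset (le_refl _)

theorem mem_FF_of {b z : V} (h : σ.lev z ≤ σ.lev b + 7) : z ∈ FF σ.lev (σ.lev b + 8) := by
  show σ.lev z < σ.lev b + 8; omega

theorem sum_X_le (S : Finset V) (hS : ∀ b ∈ S, σ.IsC b) :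
    ∑ b ∈ S, G.degree (σ.X b) ≤ Fintype.card V := by
  apply sum_degree_le
  intro b hb b' hb' hne u hu hu'
  have g := (hS b hb).gad
  have g' := (hS b' hb').gad
  have a1 := σ.ld.adj _ _ hu
  have a2 := σ.ld.adj _ _ hu.symm
  have a3 := σ.ld.adj _ _ hu'
  have a4 := σ.ld.adj _ _ hu'.symm
  have l1 := g.levx
  have l2 := g'.levx
  refine σ.zone_sep (hS b hb) (hS b' hb') hne
    (((σ.walk_X (hS b hb)).snoc (σ.mem_FF_of (by omega)) hu).mono (le_refl _) (by norm_num))
    (((σ.walk_X (hS b' hb')).snoc (σ.mem_FF_of (by omega)) hu').mono (le_refl _) (by norm_num))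
    (by omega) (by omega) rfl

theorem sum_X'_le (S : Finset V) (hS : ∀ b ∈ S, σ.IsC b) :
    ∑ b ∈ S, G.degree (σ.X' b) ≤ Fintype.card V := by
  apply sum_degree_le
  intro b hb b' hb' hne u hu hu'
  have g := (hS b hb).gad
  have g' := (hS b' hb').gad
  have a1 := σ.ld.adj _ _ hu
  have a2 := σ.ld.adj _ _ hu.symm
  have a3 := σ.ld.adj _ _ hu'
  have a4 := σ.ld.adj _ _ hu'.symm
  have l1 := g.levx'
  have l2 := g'.levx'
  refine σ.zone_sep (hS b hb) (hS b' hb') hne
    (((σ.walk_X' (hS b hb)).snoc (σ.mem_FF_of (by omega)) hu).mono (le_refl _) (by norm_num))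
    (((σ.walk_X' (hS b' hb')).snoc (σ.mem_FF_of (by omega)) hu').mono (le_refl _) (by norm_num))
    (by omega) (by omega) rfl

end Setup

end Pool.Agent.helper10.RC
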