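import Pool.Agent.helper10.RC.E2

/-! Access from a station, building gadget states, clearing a unit. -/

set_option linter.unusedSectionVars false
set_option linter.unusedVariables false

namespace Pool.Agent.helper10.RC

variable {V : Type*} {K : Type*} [Fintype V] [DecidableEq V] [DecidableEq K]
variable {G : SimpleGraph V} [DecidableRel G.Adj] {L : V → Finset K}

theorem Wk.lev {w : V} {lev : V → ℕ} {par : V → V} (h : LevelData G w lev par) {S : Set V} {m : ℕ}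
    {a b : V} (hw : Wk G S m a b) : lev a ≤ lev b + m ∧ lev b ≤ lev a + m := by
  induction hw with
  | refl m a => omega
  | step m a b c ha hab _ ih =>
    have h1 := h.adj _ _ hab
    have h2 := h.adj _ _ hab.symm
    omega

theorem Wk.inter {S F : Set V} {b : V} (hS : S ⊆ F) {m : ℕ} {a u : V} (h : Wk G S m a u) :
    ∀ n, Wk G F n b a → ∀ N, n + m ≤ N → Wk G (S ∩ {z | z ∈ F ∧ Wk G F N b z}) m a u := by
  induction h with
  | refl m a => intro n _ N _; exact Wk.refl _ _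
  | step m a b' c ha hab h ih =>
    intro n hn N hN
    exact Wk.step _ _ _ _ ⟨ha, hS ha, hn.mono (le_refl _) (by omega)⟩ hab
      (ih (n + 1) (hn.snoc (hS ha) hab) N (by omega))

namespace Setup

variable {w : V} (σ : Setup G L w)

def F (b : V) : Set V := FF σ.lev (σ.lev b + 8)
def zone (b : V) : Set V := {z | z ∈ σ.F b ∧ Wk G (σ.F b) 7 b z}
def ball (b : V) : Set V := {z | z ∈ σ.F b ∧ Wk G (σ.F b) 22 b z}
def U (b : V) : Set V := {v | 16 ≤ σ.lev v ∧ σ.cen v = b}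
def DS (D : Finset V) : Set V := {v | 16 ≤ σ.lev v ∧ σ.cen v ∈ D}
def Pre (b' b : V) : Prop := ∃ u, u ∈ σ.U b ∧ u ∈ σ.ball b'
def Closed (D : Finset V) : Prop := ∀ b ∈ D, ∀ b', σ.IsC b' → σ.Pre b' b → b' ∈ D

theorem zone_sub (b : V) : σ.zone b ⊆ σ.ball b := fun z hz =>
  ⟨hz.1, hz.2.mono (le_refl _) (by norm_num)⟩

theorem lev_zone {b z : V} (hz : z ∈ σ.zone b) : σ.lev b ≤ σ.lev z + 7 ∧ σ.lev z ≤ σ.lev b + 7 :=
  hz.2.lev σ.ld

theorem zone_disj {b b' : V} (hb : σ.IsC b) (hb' : σ.IsC b') (hne : b ≠ b') {z : V}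
    (hz : z ∈ σ.zone b) : z ∉ σ.zone b' := fun hz' =>
  σ.zone_sep hb hb' hne hz.2 hz'.2 (σ.lev_zone hz) (σ.lev_zone hz') rfl

theorem w_not_zone {b : V} (hb : σ.IsC b) : w ∉ σ.zone b := by
  intro h
  have h1 := σ.lev_zone h
  have h2 := hb.lev
  have h3 := (σ.ld.zero w).2 rfl
  omega

theorem mem_zone_self (b : V) : b ∈ σ.zone b :=
  ⟨by show σ.lev b < σ.lev b + 8; omega, Wk.refl _ _⟩

section
variable {b : V} (hb : σ.IsC b)
include hb

theorem X_zone : σ.X b ∈ σ.zone b := by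
  have g := hb.gad
  have l := g.levx
  exact ⟨by show σ.lev (σ.X b) < σ.lev b + 8; omega, (σ.walk_X hb).mono (le_refl _) (by norm_num)⟩

theorem X'_zone : σ.X' b ∈ σ.zone b := by
  have g := hb.gad
  have l := g.levx'
  exact ⟨by show σ.lev (σ.X' b) < σ.lev b + 8; omega, (σ.walk_X' hb).mono (le_refl _) (by norm_num)⟩

theorem P_walk {y : V} (hy : y ∈ σ.P b) : Wk G (σ.F b) 6 b y :=
  (σ.walk_X hb).snoc (σ.X_zone hb).1 (hb.gad.adjP y hy)

theorem P'_walk {y : V} (hy : y ∈ σ.P' b) : Wk G (σ.F b) 6 b y :=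
  (σ.walk_X' hb).snoc (σ.X'_zone hb).1 (hb.gad.adjP' y hy)

theorem P_zone : σ.P b ⊆ σ.zone b := by
  intro y hy
  have g := hb.gad
  have l := g.levP y (Or.inr hy)
  exact ⟨by show σ.lev y < σ.lev b + 8; omega, (σ.P_walk hb hy).mono (le_refl _) (by norm_num)⟩

theorem P'_zone : σ.P' b ⊆ σ.zone b := by
  intro y hy
  have g := hb.gad
  have l := g.levP' y (Or.inr hy)
  exact ⟨by show σ.lev y < σ.lev b + 8; omega, (σ.P'_walk hb hy).mono (le_refl _) (by norm_num)⟩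

theorem NP_zone {y u : V} (hy : y ∈ σ.P b) (hu : G.Adj y u) : u ∈ σ.zone b ∧ u ∉ σ.P' b := by
  have g := hb.gad
  have l := g.levP y (Or.inr hy)
  have a := σ.ld.adj _ _ hu.symm
  refine ⟨⟨by show σ.lev u < σ.lev b + 8; omega, (σ.P_walk hb hy).snoc (σ.P_zone hb hy).1 hu⟩, ?_⟩
  intro h
  have l' := g.levP' u (Or.inr h)
  omega

theorem NP'_zone {y u : V} (hy : y ∈ σ.P' b) (hu : G.Adj y u) : u ∈ σ.zone b ∧ u ∉ σ.P b := by
  have g := hb.gad
  have l := g.levP' y (Or.inr hy)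
  have a := σ.ld.adj _ _ hu.symm
  have a' := σ.ld.adj _ _ hu
  refine ⟨⟨by show σ.lev u < σ.lev b + 8; omega, (σ.P'_walk hb hy).snoc (σ.P'_zone hb hy).1 hu⟩, ?_⟩
  intro h
  have l' := g.levP u (Or.inr h)
  omega

theorem PP' {y : V} (hy : y ∈ σ.P b) : y ∉ σ.P' b := by
  intro h
  have g := hb.gad
  have l := g.levP y (Or.inr hy)
  have l' := g.levP' y (Or.inr h)
  omega

theorem X_not : σ.X b ∉ σ.P b ∪ σ.P' b := by
  have g := hb.gad
  have hne : σ.X b ≠ b := by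
    intro h
    have l := g.levx
    rw [h] at l
    omega
  exact (g.walk.start_mem hne).2

theorem X'_not : σ.X' b ∉ σ.P b ∪ σ.P' b := by
  have g := hb.gad
  have hne : σ.X' b ≠ b := by
    intro h
    have l := g.levx'
    rw [h] at l
    omega
  exact (g.walk'.start_mem hne).2

theorem wXr : Wk G (σ.zone b \ (σ.P b ∪ σ.P' b)) 5 b (σ.X b) := by
  have g := hb.gad
  have h := g.walkr.inter (F := σ.F b) Set.sdiff_subset 0 (Wk.refl _ _) 7 (by norm_num)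
  refine h.mono ?_ (le_refl _)
  intro z hz
  exact ⟨hz.2, hz.1.2⟩

theorem wX'r : Wk G (σ.zone b \ (σ.P b ∪ σ.P' b)) 5 b (σ.X' b) := by
  have g := hb.gad
  have h := g.walkr'.inter (F := σ.F b) Set.sdiff_subset 0 (Wk.refl _ _) 7 (by norm_num)
  refine h.mono ?_ (le_refl _)
  intro z hz
  exact ⟨hz.2, hz.1.2⟩

theorem wX : Wk G (σ.zone b \ (σ.P b ∪ σ.P' b)) 5 (σ.X b) b :=
  (σ.wXr hb).symm ⟨σ.X_zone hb, σ.X_not hb⟩

theorem wX' : Wk G (σ.zone b \ (σ.P b ∪ σ.P' b)) 5 (σ.X' b) b :=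
  (σ.wX'r hb).symm ⟨σ.X'_zone hb, σ.X'_not hb⟩

/-! ### building -/

theorem build_P' (hL : ∀ v, G.degree v + 1 ≤ (L v).card) {M : Set V} (hM : σ.zone b ⊆ M) {f : V → K}
    (hf : Good G L f) (hr : Reason G L f (σ.X b) (σ.P b)) :
    ∃ f', Reach G L (M \ σ.P b) (4 * G.degree (σ.X' b) + 100) f f' ∧
      Reason G L f' (σ.X' b) (σ.P' b) := by
  obtain ⟨q, hq⟩ := hb.gad.gad'
  have e1 : σ.zone b \ (σ.P b ∪ σ.P' b) ⊆ M \ σ.P b := fun z hz =>
    ⟨hM hz.1, fun h => hz.2 (Or.inl h)⟩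
  have hwalk : Wk G (M \ σ.P b) 10 (σ.X b) (σ.X' b) :=
    ((σ.wX hb).trans (σ.wX'r hb)).mono e1 (by norm_num)
  obtain ⟨f', h1, h2⟩ := build hL hf hq hb.gad.tight' (M := M \ σ.P b) (s := σ.X b) (m := 10)
    (fun y hy => ⟨hM (σ.P'_zone hb hy), fun h => σ.PP' hb h hy⟩)
    ⟨hM (σ.X'_zone hb), fun h => σ.X'_not hb (Or.inl h)⟩
    (fun y hy u hu => ⟨hM (σ.NP'_zone hb hy hu).1, (σ.NP'_zone hb hy hu).2⟩)
    (fun h => σ.X_not hb (Or.inr h)) hwalk
    (src_of_reason (hL _) hr (fun u hu h => h.2 hu))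
  exact ⟨f', h1.mono (le_refl _) (by omega), h2⟩

theorem build_P (hL : ∀ v, G.degree v + 1 ≤ (L v).card) {M : Set V} (hM : σ.zone b ⊆ M) {f : V → K}
    (hf : Good G L f) (hr : Reason G L f (σ.X' b) (σ.P' b)) :
    ∃ f', Reach G L (M \ σ.P' b) (4 * G.degree (σ.X b) + 100) f f' ∧
      Reason G L f' (σ.X b) (σ.P b) := by
  obtain ⟨q, hq⟩ := hb.gad.gad
  have e1 : σ.zone b \ (σ.P b ∪ σ.P' b) ⊆ M \ σ.P' b := fun z hz =>
    ⟨hM hz.1, fun h => hz.2 (Or.inr h)⟩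
  have hwalk : Wk G (M \ σ.P' b) 10 (σ.X' b) (σ.X b) :=
    ((σ.wX' hb).trans (σ.wXr hb)).mono e1 (by norm_num)
  obtain ⟨f', h1, h2⟩ := build hL hf hq hb.gad.tight (M := M \ σ.P' b) (s := σ.X' b) (m := 10)
    (fun y hy => ⟨hM (σ.P_zone hb hy), fun h => σ.PP' hb hy h⟩)
    ⟨hM (σ.X_zone hb), fun h => σ.X_not hb (Or.inr h)⟩
    (fun y hy u hu => ⟨hM (σ.NP_zone hb hy hu).1, (σ.NP_zone hb hy hu).2⟩)
    (fun h => σ.X'_not hb (Or.inl h)) hwalk
    (src_of_reason (hL _) hr (fun u hu h => h.2 hu))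
  exact ⟨f', h1.mono (le_refl _) (by omega), h2⟩

/-- the two ways out of a station -/
theorem ways {M : Set V} (hM : σ.zone b ⊆ M) {l : ℕ} {z : V} (hw : Wk G M l b z) :
    Wk G (M \ σ.P b) (l + 12) (σ.X b) z ∨ Wk G (M \ σ.P' b) (l + 12) (σ.X' b) z := by
  have e1 : σ.zone b \ (σ.P b ∪ σ.P' b) ⊆ M \ σ.P b := fun z hz =>
    ⟨hM hz.1, fun h => hz.2 (Or.inl h)⟩
  have e2 : σ.zone b \ (σ.P b ∪ σ.P' b) ⊆ M \ σ.P' b := fun z hz =>
    ⟨hM hz.1, fun h => hz.2 (Or.inr h)⟩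
  have e3 : M \ (σ.P b ∪ σ.P' b) ⊆ M \ σ.P b := fun z hz => ⟨hz.1, fun h => hz.2 (Or.inl h)⟩
  have e4 : M \ (σ.P b ∪ σ.P' b) ⊆ M \ σ.P' b := fun z hz => ⟨hz.1, fun h => hz.2 (Or.inr h)⟩
  rcases hw.lastHit (σ.P b ∪ σ.P' b) with h | ⟨q, hq, hqM, q', hqq, h⟩
  · left
    exact (((σ.wX hb).mono e1 (le_refl _)).trans (h.mono e3 (le_refl _))).mono (le_refl _) (by omega)
  · rcases hq with hq | hq
    · right
      have h1 : Wk G (M \ σ.P' b) (5 + 5) (σ.X' b) (σ.X b) :=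
        ((σ.wX' hb).trans (σ.wXr hb)).mono e2 (le_refl _)
      have h2 : Wk G (M \ σ.P' b) (5 + 5 + 1) (σ.X' b) q :=
        h1.snoc ⟨hM (σ.X_zone hb), fun h => σ.X_not hb (Or.inr h)⟩ (hb.gad.adjP q hq)
      have h3 : Wk G (M \ σ.P' b) (5 + 5 + 1 + 1) (σ.X' b) q' :=
        h2.snoc ⟨hqM, σ.PP' hb hq⟩ hqq
      exact (h3.trans (h.mono e4 (le_refl _))).mono (le_refl _) (by omega)
    · left
      have h1 : Wk G (M \ σ.P b) (5 + 5) (σ.X b) (σ.X' b) :=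
        ((σ.wX hb).trans (σ.wX'r hb)).mono e1 (le_refl _)
      have h2 : Wk G (M \ σ.P b) (5 + 5 + 1) (σ.X b) q :=
        h1.snoc ⟨hM (σ.X'_zone hb), fun h => σ.X'_not hb (Or.inl h)⟩ (hb.gad.adjP' q hq)
      have h3 : Wk G (M \ σ.P b) (5 + 5 + 1 + 1) (σ.X b) q' :=
        h2.snoc ⟨hqM, fun h => σ.PP' hb h hq⟩ hqq
      exact (h3.trans (h.mono e3 (le_refl _))).mono (le_refl _) (by omega)

theorem access (hL : ∀ v, G.degree v + 1 ≤ (L v).card) {M : Set V} (hM : σ.zone b ⊆ M) {f : V → K}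
    (hf : Good G L f) (hr : Reason G L f (σ.X b) (σ.P b)) {l : ℕ} {z : V} (hw : Wk G M l b z) :
    ∃ f' s Q, Reach G L M (4 * G.degree (σ.X' b) + 100) f f' ∧ Reason G L f' s Q ∧
      s ∈ σ.zone b ∧ Q ⊆ σ.zone b ∧ Wk G (M \ Q) (l + 12) s z := by
  rcases σ.ways hb hM hw with h | h
  · exact ⟨f, σ.X b, σ.P b, Reach.refl _ _ hf, hr, σ.X_zone hb, σ.P_zone hb, h⟩
  · obtain ⟨f', h1, h2⟩ := σ.build_P' hb hL hM hf hr
    exact ⟨f', σ.X' b, σ.P' b, h1.mono Set.sdiff_subset (le_refl _), h2, σ.X'_zone hb,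
      σ.P'_zone hb, h⟩

end

/-- potential -/
def phi (b : V) : ℕ := if b = w then 0 else 4 * G.degree (σ.X' b)

/-- one run is at the station `b` -/
def Stn (M : Set V) (b : V) (f : V → K) : Prop :=
  Good G L f ∧ (b = w ∨ (σ.IsC b ∧ σ.zone b ⊆ M ∧ Reason G L f (σ.X b) (σ.P b)))

theorem IsC.ne {σ : Setup G L w} {b : V} (hb : σ.IsC b) : b ≠ w := by
  intro h
  have h1 := hb.lev
  have h2 := (σ.ld.zero b).2 h
  omega

theorem access' (hL : ∀ v, G.degree v + 1 ≤ (L v).card) (hw2 : G.degree w + 2 ≤ (L w).card)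
    {M : Set V} {b0 b : V} (hb : σ.IsC b) (hne : b0 ≠ b) {f : V → K} (hs : σ.Stn M b0 f) {l : ℕ}
    (hw : Wk G M l b0 b) :
    ∃ f' s Q, Reach G L M (σ.phi b0 + 100) f f' ∧ Reason G L f' s Q ∧
      s ∉ σ.zone b ∧ (∀ z ∈ Q, z ∉ σ.zone b) ∧ Wk G (M \ Q) (l + 12) s b := by
  obtain ⟨hf, rfl | ⟨hb0, hM, hr⟩⟩ := hs
  · refine ⟨f, b0, ∅, Reach.refl _ _ hf, Or.inr (Or.inr hw2), σ.w_not_zone hb, by simp, ?_⟩
    simpa using hw.mono (le_refl _) (by omega : l ≤ l + 12)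
  · obtain ⟨f', s, Q, h1, h2, h3, h4, h5⟩ := σ.access hb0 hL hM hf hr hw
    refine ⟨f', s, Q, ?_, h2, σ.zone_disj hb0 hb hne h3, fun z hz => σ.zone_disj hb0 hb hne (h4 hz), h5⟩
    unfold phi
    rw [if_neg hb0.ne]
    exact h1

/-- arrive at `b` -/
theorem arrive (hL : ∀ v, G.degree v + 1 ≤ (L v).card) (hw2 : G.degree w + 2 ≤ (L w).card)
    {M : Set V} {b0 b : V} (hb : σ.IsC b) (hne : b0 ≠ b) {f : V → K} (hs : σ.Stn M b0 f) {l : ℕ}
    (hw : Wk G M l b0 b) (hM : σ.zone b ⊆ M) :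
    ∃ f', Reach G L M (σ.phi b0 + 4 * l + 4 * G.degree (σ.X b) + 228) f f' ∧
      Reason G L f' (σ.X b) (σ.P b) := by
  obtain ⟨f1, s, Q, h1, h2, h3, h4, h5⟩ := σ.access' hL hw2 hb hne hs hw
  obtain ⟨q, hq⟩ := hb.gad.gad
  have hz : σ.zone b ⊆ M \ Q := fun z hz => ⟨hM hz, fun h => h4 z h hz⟩
  have hwalk : Wk G (M \ Q) (l + 17) s (σ.X b) :=
    (h5.trans ((σ.wXr hb).mono (fun z hzz => hz hzz.1) (le_refl _))).mono (le_refl _) (by omega)
  obtain ⟨f', h6, h7⟩ := build hL h1.good_right hq hb.gad.tight (M := M \ Q) (s := s) (m := l + 17)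
    (fun y hy => hz (σ.P_zone hb hy)) (hz (σ.X_zone hb))
    (fun y hy u hu => hz (σ.NP_zone hb hy hu).1)
    (fun h => h3 (σ.P_zone hb h)) hwalk
    (src_of_reason (hL _) h2 (fun u hu h => h.2 hu))
  exact ⟨f', (h1.trans (h6.mono Set.sdiff_subset (le_refl _))).mono (le_refl _) (by omega), h7⟩

/-! ### units -/

/-- foot of `v` -/
def foot (v : V) : V := σ.par^[σ.lev v % 16] v

theorem lev_foot (v : V) : σ.lev (σ.foot v) = 16 * (σ.lev v / 16) := by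
  have := lev_iter σ.ld v (σ.lev v % 16) (by omega)
  unfold foot
  omega

theorem lev_U {b v : V} (hv : v ∈ σ.U b) : σ.lev b + 8 ≤ σ.lev v ∧ σ.lev v < σ.lev b + 24 ∧
    σ.lev b + 8 = 16 * (σ.lev v / 16) := by
  obtain ⟨h1, rfl⟩ := hv
  have h2 := lev_base σ.ld h1
  have h3 := σ.cen_base v h1
  omega

theorem base_iter {v : V} {i : ℕ} (hi : i ≤ σ.lev v % 16) :
    base σ.lev σ.par (σ.par^[i] v) = base σ.lev σ.par v := by
  have h1 := lev_iter σ.ld v i (by omega)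
  unfold base
  rw [← Function.iterate_add_apply]
  congr 1
  omega

theorem iter_U {b v : V} (hv : v ∈ σ.U b) {i : ℕ} (hi : i ≤ σ.lev v % 16) :
    σ.par^[i] v ∈ σ.U b := by
  have h0 := hv.1
  have h1 := lev_iter σ.ld v i (by omega)
  refine ⟨by omega, ?_⟩
  rw [σ.cen_congr _ _ (σ.base_iter hi)]
  exact hv.2

theorem foot_iter {v : V} {i : ℕ} (hi : i ≤ σ.lev v % 16) :
    σ.foot (σ.par^[i] v) = σ.foot v := by
  have h1 := lev_iter σ.ld v i (by omega)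
  unfold foot
  rw [← Function.iterate_add_apply]
  congr 1
  omega

/-- walk from the foot of `v` to `v`: all vertices but the last are proper ancestors of `v`. -/
theorem foot_walk {b v : V} (hv : v ∈ σ.U b) :
    Wk G {z | z ∈ σ.U b ∧ σ.lev z < σ.lev v ∧ σ.foot z = σ.foot v} 15 (σ.foot v) v := by
  have h := path_down (G := G) (fun i => σ.par^[σ.lev v % 16 - (σ.lev v % 16 - i)] v)
    (n := σ.lev v % 16) (S := {z | z ∈ σ.U b ∧ σ.lev z < σ.lev v ∧ σ.foot z = σ.foot v})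
    (fun i hi => by
      have := adj_iter σ.ld v i (by omega)
      rw [show σ.lev v % 16 - (σ.lev v % 16 - i) = i by omega,
        show σ.lev v % 16 - (σ.lev v % 16 - (i + 1)) = i + 1 by omega]
      exact this)
    (fun i h1 h2 => by
      rw [show σ.lev v % 16 - (σ.lev v % 16 - i) = i by omega]
      have h3 := lev_iter σ.ld v i (by omega)
      exact ⟨σ.iter_U hv h2, by omega, σ.foot_iter h2⟩)
  simp only [Nat.sub_self, Nat.sub_zero, Function.iterate_zero, id_eq] at h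
  exact h.mono (le_refl _) (by omega)

/-- walk from the centre to the foot, inside the ball -/
theorem ball_walk {b v : V} (hv : v ∈ σ.U b) : Wk G (σ.ball b) 22 b (σ.foot v) := by
  have hl := σ.lev_U hv
  have hb : σ.cen v = b := hv.2
  have h1 := σ.cen_walk v hv.1
  rw [hb] at h1
  -- from the base to the foot
  set r := σ.lev v % 16 with hr
  have h2 : Wk G (σ.F b) 8 (base σ.lev σ.par v) (σ.foot v) := by
    have h := path_down (G := G) (fun i => σ.par^[r + i] v) (n := 8) (S := σ.F b)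
      (fun i hi => adj_iter σ.ld v (r + i) (by omega))
      (fun i h1 h2 => by
        have h3 := lev_iter σ.ld v (r + i) (by omega)
        show σ.lev (σ.par^[r + i] v) < σ.lev b + 8
        omega)
    exact h
  have h3 : Wk G (σ.F b) 22 b (σ.foot v) := h1.trans h2
  have h4 := h3.inter (F := σ.F b) (le_refl _) 0 (Wk.refl _ _) 22 (by norm_num)
  exact h4.mono (fun z hz => hz.2) (le_refl _)

end Setup

end Pool.Agent.helper10.RC
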