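import Pool.Agent.helper10.RC.F

/-! Clearing a unit. -/

set_option linter.unusedSectionVars false
set_option linter.unusedVariables false

namespace Pool.Agent.helper10.RC

variable {V : Type*} {K : Type*} [Fintype V] [DecidableEq V] [DecidableEq K]
variable {G : SimpleGraph V} [DecidableRel G.Adj] {L : V → Finset K}

namespace Setup

variable {w : V} (σ : Setup G L w)

/-- the unit of `b`, as a finset -/
def Uf (b : V) : Finset V := Finset.univ.filter (fun v => 16 ≤ σ.lev v ∧ σ.cen v = b)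

theorem mem_Uf {b v : V} : v ∈ σ.Uf b ↔ v ∈ σ.U b := by
  unfold Uf U; simp

theorem ball_lev {b z : V} (hz : z ∈ σ.ball b) : σ.lev z < σ.lev b + 8 := hz.1

theorem unit (hL : ∀ v, G.degree v + 1 ≤ (L v).card) {b : V} (hb : σ.IsC b) {D : Finset V}
    (hbD : b ∉ D) (hball : σ.ball b ⊆ (σ.DS D)ᶜ) {f g : V → K} (hf : Good G L f) (hg : Good G L g)
    (hfg : ∀ u ∈ σ.DS D, f u = g u) (hrf : Reason G L f (σ.X b) (σ.P b))
    (hrg : Reason G L g (σ.X b) (σ.P b)) :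
    ∃ f' g', Reach G L (σ.DS D)ᶜ
        (52 * (σ.Uf b).card + 4 * G.degree (σ.X' b) + 4 * G.degree (σ.X b) + 200) f f' ∧
      Reach G L (σ.DS D)ᶜ
        (52 * (σ.Uf b).card + 4 * G.degree (σ.X' b) + 4 * G.degree (σ.X b) + 200) g g' ∧
      (∀ u ∈ σ.DS D, f' u = g' u) ∧ (∀ u ∈ σ.U b, f' u = g' u) ∧
      Reason G L f' (σ.X b) (σ.P b) ∧ Reason G L g' (σ.X b) (σ.P b) := by
  classical
  have UD : ∀ v ∈ σ.U b, v ∉ σ.DS D := fun v hv h => hbD (hv.2 ▸ h.2)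
  have Ul : ∀ v ∈ σ.U b, σ.lev b + 8 ≤ σ.lev v := fun v hv => (σ.lev_U hv).1
  have Pl : ∀ z ∈ σ.P b, σ.lev z + 1 ≤ σ.lev b := fun z hz => (hb.gad.levP z (Or.inr hz)).2
  have P'l : ∀ z ∈ σ.P' b, σ.lev z ≤ σ.lev b + 6 := fun z hz => (hb.gad.levP' z (Or.inr hz)).2
  have zb := σ.zone_sub b
  set W1 := (σ.Uf b).filter (fun v => Wk G (σ.ball b \ σ.P b) 34 (σ.X b) (σ.foot v)) with hW1
  set W2 := (σ.Uf b).filter (fun v => ¬ Wk G (σ.ball b \ σ.P b) 34 (σ.X b) (σ.foot v)) with hW2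
  have hcard : W1.card + W2.card = (σ.Uf b).card := Finset.card_filter_add_card_filter_not _
  have m1 : ∀ v, v ∈ W1 ↔ v ∈ σ.U b ∧ Wk G (σ.ball b \ σ.P b) 34 (σ.X b) (σ.foot v) := by
    intro v; rw [hW1, Finset.mem_filter, mem_Uf]
  have m2 : ∀ v, v ∈ W2 ↔ v ∈ σ.U b ∧ ¬ Wk G (σ.ball b \ σ.P b) 34 (σ.X b) (σ.foot v) := by
    intro v; rw [hW2, Finset.mem_filter, mem_Uf]
  have w2 : ∀ v ∈ W2, Wk G (σ.ball b \ σ.P' b) 34 (σ.X' b) (σ.foot v) := by
    intro v hv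
    obtain ⟨hv1, hv2⟩ := (m2 v).1 hv
    exact (σ.ways hb zb (σ.ball_walk hv1)).resolve_left hv2
  -- step 1
  set M1 : Set V := (σ.DS D)ᶜ \ σ.P b with hM1
  have inM1 : ∀ z, z ∈ σ.U b → z ∈ M1 := fun z hz =>
    ⟨UD z hz, fun h => by have := Pl z h; have := Ul z hz; omega⟩
  obtain ⟨f1, g1, a1, a2, a3, a4⟩ := clearSet hL σ.lev (σ.X b) 49 W1.card W1 M1 (σ.DS D) f g rfl hf hg
    hfg (fun u hu h => h.1 hu) (fun u hu => inM1 u ((m1 u).1 hu).1)
    (fun v hv u hvu => by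
      by_cases hu : u ∈ σ.DS D
      · exact Or.inr hu
      · refine Or.inl ⟨hu, fun h => ?_⟩
        have e1 := Pl u h
        have e2 := Ul v ((m1 v).1 hv).1
        have e3 := σ.ld.adj _ _ hvu
        omega)
    (fun v hv => by
      obtain ⟨hv1, hv2⟩ := (m1 v).1 hv
      have h1 : Wk G (M1 \ {v' | v' ∈ W1 ∧ σ.lev v ≤ σ.lev v'}) 34 (σ.X b) (σ.foot v) := by
        refine hv2.mono ?_ (le_refl _)
        intro z hz
        refine ⟨⟨hball hz.1, hz.2⟩, fun h => ?_⟩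
        have e1 := σ.ball_lev hz.1
        have e2 := Ul z ((m1 z).1 h.1).1
        omega
      have h2 : Wk G (M1 \ {v' | v' ∈ W1 ∧ σ.lev v ≤ σ.lev v'}) 15 (σ.foot v) v := by
        refine (σ.foot_walk hv1).mono ?_ (le_refl _)
        intro z hz
        exact ⟨inM1 z hz.1, fun h => by have := hz.2.1; have := h.2; omega⟩
      exact h1.trans h2)
    (src_of_reason (hL _) hrf (fun u hu h => h.2 hu)) (src_of_reason (hL _) hrg (fun u hu h => h.2 hu))
  have hrf1 : Reason G L f1 (σ.X b) (σ.P b) := hrf.reach a1 (fun u hu h => h.2 hu)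
  have hrg1 : Reason G L g1 (σ.X b) (σ.P b) := hrg.reach a2 (fun u hu h => h.2 hu)
  -- step 2
  set M2 : Set V := (σ.DS D)ᶜ \ {v | v ∈ W1} with hM2
  have zM2 : σ.zone b ⊆ M2 := fun z hz => ⟨hball (zb hz), fun h => by
    have e1 := σ.ball_lev (zb hz)
    have e2 := Ul z ((m1 z).1 h).1
    omega⟩
  obtain ⟨f2, b1, b2⟩ := σ.build_P' hb hL zM2 a1.good_right hrf1
  obtain ⟨g2, b3, b4⟩ := σ.build_P' hb hL zM2 a2.good_right hrg1
  have b1' : Reach G L M2 (4 * G.degree (σ.X' b) + 100) f1 f2 := b1.mono Set.sdiff_subset (le_refl _)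
  have b3' : Reach G L M2 (4 * G.degree (σ.X' b) + 100) g1 g2 := b3.mono Set.sdiff_subset (le_refl _)
  have agr2 : ∀ u ∈ σ.DS D ∪ {v | v ∈ W1}, f2 u = g2 u := by
    intro u hu
    have hu2 : u ∉ M2 := by
      rcases hu with hu | hu
      · exact fun h => h.1 hu
      · exact fun h => h.2 hu
    rw [b1'.agree u hu2, b3'.agree u hu2]
    rcases hu with hu | hu
    · exact a3 u hu
    · exact a4 u hu
  -- step 3
  set M3 : Set V := M2 \ σ.P' b with hM3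
  have inM3 : ∀ z, z ∈ σ.U b → z ∉ W1 → z ∈ M3 := fun z hz hz1 =>
    ⟨⟨UD z hz, hz1⟩, fun h => by have := P'l z h; have := Ul z hz; omega⟩
  have n12 : ∀ z, z ∈ W2 → z ∉ W1 := fun z hz h => ((m2 z).1 hz).2 ((m1 z).1 h).2
  obtain ⟨f3, g3, c1, c2, c3, c4⟩ := clearSet hL σ.lev (σ.X' b) 49 W2.card W2 M3
    (σ.DS D ∪ {v | v ∈ W1}) f2 g2 rfl b1'.good_right b3'.good_right agr2
    (fun u hu h => by
      rcases hu with hu | hu
      · exact h.1.1 hu
      · exact h.1.2 hu)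
    (fun u hu => inM3 u ((m2 u).1 hu).1 (n12 u hu))
    (fun v hv u hvu => by
      by_cases hu : u ∈ σ.DS D ∪ {v | v ∈ W1}
      · exact Or.inr hu
      · refine Or.inl ⟨⟨fun h => hu (Or.inl h), fun h => hu (Or.inr h)⟩, fun h => ?_⟩
        have e1 := P'l u h
        have e2 := Ul v ((m2 v).1 hv).1
        have e3 := σ.ld.adj _ _ hvu
        omega)
    (fun v hv => by
      obtain ⟨hv1, hv2⟩ := (m2 v).1 hv
      have h1 : Wk G (M3 \ {v' | v' ∈ W2 ∧ σ.lev v ≤ σ.lev v'}) 34 (σ.X' b) (σ.foot v) := by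
        refine (w2 v hv).mono ?_ (le_refl _)
        intro z hz
        have e1 := σ.ball_lev hz.1
        refine ⟨⟨⟨hball hz.1, fun h => ?_⟩, hz.2⟩, fun h => ?_⟩
        · have e2 := Ul z ((m1 z).1 h).1
          omega
        · have e2 := Ul z ((m2 z).1 h.1).1
          omega
      have h2 : Wk G (M3 \ {v' | v' ∈ W2 ∧ σ.lev v ≤ σ.lev v'}) 15 (σ.foot v) v := by
        refine (σ.foot_walk hv1).mono ?_ (le_refl _)
        intro z hz
        refine ⟨inM3 z hz.1 fun h => hv2 ?_, fun h => by have := hz.2.1; have := h.2; omega⟩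
        rw [← hz.2.2]
        exact ((m1 z).1 h).2
      exact h1.trans h2)
    (src_of_reason (hL _) b2 (fun u hu h => h.2 hu)) (src_of_reason (hL _) b4 (fun u hu h => h.2 hu))
  have hrf3 : Reason G L f3 (σ.X' b) (σ.P' b) := b2.reach c1 (fun u hu h => h.2 hu)
  have hrg3 : Reason G L g3 (σ.X' b) (σ.P' b) := b4.reach c2 (fun u hu h => h.2 hu)
  -- step 4
  set M4 : Set V := (σ.DS D)ᶜ \ σ.U b with hM4
  have zM4 : σ.zone b ⊆ M4 := fun z hz => ⟨hball (zb hz), fun h => by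
    have e1 := σ.ball_lev (zb hz)
    have e2 := Ul z h
    omega⟩
  obtain ⟨f4, d1, d2⟩ := σ.build_P hb hL zM4 c1.good_right hrf3
  obtain ⟨g4, d3, d4⟩ := σ.build_P hb hL zM4 c2.good_right hrg3
  have d1' : Reach G L M4 (4 * G.degree (σ.X b) + 100) f3 f4 := d1.mono Set.sdiff_subset (le_refl _)
  have d3' : Reach G L M4 (4 * G.degree (σ.X b) + 100) g3 g4 := d3.mono Set.sdiff_subset (le_refl _)
  have s1 : M1 ⊆ (σ.DS D)ᶜ := Set.sdiff_subset
  have s2 : M2 ⊆ (σ.DS D)ᶜ := Set.sdiff_subset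
  have s3 : M3 ⊆ (σ.DS D)ᶜ := fun z hz => hz.1.1
  have s4 : M4 ⊆ (σ.DS D)ᶜ := Set.sdiff_subset
  refine ⟨f4, g4, ?_, ?_, ?_, ?_, d2, d4⟩
  · exact ((((a1.mono s1 (le_refl _)).trans (b1'.mono s2 (le_refl _))).trans
      (c1.mono s3 (le_refl _))).trans (d1'.mono s4 (le_refl _))).mono (le_refl _) (by omega)
  · exact ((((a2.mono s1 (le_refl _)).trans (b3'.mono s2 (le_refl _))).trans
      (c2.mono s3 (le_refl _))).trans (d3'.mono s4 (le_refl _))).mono (le_refl _) (by omega)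
  · intro u hu
    rw [d1'.agree u (fun h => h.1 hu), d3'.agree u (fun h => h.1 hu)]
    exact c3 u (Or.inl hu)
  · intro u hu
    rw [d1'.agree u (fun h => h.2 hu), d3'.agree u (fun h => h.2 hu)]
    by_cases hu1 : u ∈ W1
    · exact c3 u (Or.inr hu1)
    · apply c4 u
      rw [m2]
      exact ⟨hu, fun h => hu1 ((m1 u).2 ⟨hu, h⟩)⟩

end Setup

end Pool.Agent.helper10.RC
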