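import Pool.Agent.helper10.RC.F2

/-! The tour. -/

set_option linter.unusedSectionVars false
set_option linter.unusedVariables false

namespace Pool.Agent.helper10.RC

variable {V : Type*} {K : Type*} [Fintype V] [DecidableEq V] [DecidableEq K]
variable {G : SimpleGraph V} [DecidableRel G.Adj] {L : V → Finset K}

theorem Wk.cast {S : Set V} {m : ℕ} {a a' b : V} (h : Wk G S m a b) (e : a = a') : Wk G S m a' b :=
  e ▸ h

namespace Setup

variable {w : V} (σ : Setup G L w)

def wt (b : V) : ℕ := 52 * (σ.Uf b).card + 8 * G.degree (σ.X b) + 8 * G.degree (σ.X' b) + 900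

theorem intact {D : Finset V} (hcl : σ.Closed D) {b : V} (hb : σ.IsC b) (hbD : b ∉ D) :
    σ.ball b ⊆ (σ.DS D)ᶜ := fun z hz hzD =>
  hbD (hcl _ hzD.2 b hb ⟨z, ⟨hzD.1, rfl⟩, hz⟩)

theorem mem_DS_insert {D : Finset V} {b z : V} : z ∈ σ.DS (insert b D) ↔ z ∈ σ.DS D ∨ z ∈ σ.U b := by
  unfold DS U
  constructor
  · rintro ⟨h1, h2⟩
    rcases Finset.mem_insert.1 h2 with h3 | h3
    · exact Or.inr ⟨h1, h3⟩
    · exact Or.inl ⟨h1, h3⟩
  · rintro (⟨h1, h2⟩ | ⟨h1, h2⟩)
    · exact ⟨h1, Finset.mem_insert_of_mem h2⟩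
    · exact ⟨h1, Finset.mem_insert.2 (Or.inl h2)⟩

theorem intact_insert {D : Finset V} (hcl : σ.Closed D) {b : V} (hb : σ.IsC b) (hbD : b ∉ D) :
    σ.ball b ⊆ (σ.DS (insert b D))ᶜ := by
  intro z hz hzD
  rcases σ.mem_DS_insert.1 hzD with h | h
  · exact σ.intact hcl hb hbD hz h
  · have h1 := σ.ball_lev hz
    have h2 := σ.lev_U h
    omega

theorem DS_mono {D D' : Finset V} (h : D ⊆ D') : (σ.DS D')ᶜ ⊆ (σ.DS D)ᶜ := fun z hz hz' =>
  hz ⟨hz'.1, h hz'.2⟩

theorem walk_between {D : Finset V} (hcl : σ.Closed D) {b b' : V} (hb : σ.IsC b) (hbD : b ∉ D)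
    (hb' : σ.ball b' ⊆ (σ.DS D)ᶜ) (hpre : σ.Pre b' b) :
    Wk G (σ.DS D)ᶜ 59 b b' ∧ Wk G (σ.DS D)ᶜ 59 b' b := by
  obtain ⟨u, hu, hub⟩ := hpre
  have hint := σ.intact hcl hb hbD
  have UD : ∀ v ∈ σ.U b, v ∈ (σ.DS D)ᶜ := fun v hv h => hbD (hv.2 ▸ h.2)
  have h1 : Wk G (σ.DS D)ᶜ 22 b (σ.foot u) := (σ.ball_walk hu).mono hint (le_refl _)
  have h2 : Wk G (σ.DS D)ᶜ 15 (σ.foot u) u := (σ.foot_walk hu).mono (fun z hz => UD z hz.1) (le_refl _)
  have h3 : Wk G (σ.DS D)ᶜ 22 b' u := by
    have h4 := hub.2.inter (F := σ.F b') (le_refl _) 0 (Wk.refl _ _) 22 (by norm_num)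
    exact h4.mono (fun z hz => hb' hz.2) (le_refl _)
  have h4 : Wk G (σ.DS D)ᶜ 22 u b' := h3.symm (hb' hub)
  have h5 : Wk G (σ.DS D)ᶜ 59 b b' := (h1.trans h2).trans h4
  exact ⟨h5, h5.symm (hb' (σ.zone_sub _ (σ.mem_zone_self b')))⟩

theorem proc (hL : ∀ v, G.degree v + 1 ≤ (L v).card) (hw2 : G.degree w + 2 ≤ (L w).card)
    (C : Finset V) (hC : ∀ b, b ∈ C ↔ σ.IsC b) (N : ℕ) (hN : ∀ v, σ.lev v ≤ N) :
    ∀ (μ : ℕ) (D : Finset V) (b0 b : V) (l : ℕ) (f g : V → K),
      (C \ D).card * (N + 1) + (N - σ.lev b) < μ → D ⊆ C → σ.Closed D → b ∈ C → b ∉ D →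
      (b0 = w ∨ b0 ∈ D) → σ.Stn (σ.DS D)ᶜ b0 f → σ.Stn (σ.DS D)ᶜ b0 g →
      (∀ u ∈ σ.DS D, f u = g u) → Wk G (σ.DS D)ᶜ l b0 b →
      ∃ (D' : Finset V) (f' g' : V → K) (k : ℕ), D ⊆ D' ∧ D' ⊆ C ∧ σ.Closed D' ∧ b ∈ D' ∧
        (∀ c ∈ D', c ∈ D ∨ σ.lev b ≤ σ.lev c) ∧ σ.ball b ⊆ (σ.DS D')ᶜ ∧
        Reason G L f' (σ.X b) (σ.P b) ∧ Reason G L g' (σ.X b) (σ.P b) ∧
        (∀ u ∈ σ.DS D', f' u = g' u) ∧ Reach G L (σ.DS D)ᶜ k f f' ∧ Reach G L (σ.DS D)ᶜ k g g' ∧
        k + 4 * G.degree (σ.X' b) + 472 ≤ σ.phi b0 + 4 * l + ∑ c ∈ D' \ D, σ.wt c := by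
  classical
  intro μ
  induction μ with
  | zero => intro D b0 b l f g h; omega
  | succ μ ih =>
    intro D b0 b l f g hμ hDC hcl hbC hbD hb0 hsf hsg hfg hw
    have hb := (hC b).1 hbC
    have hne : b0 ≠ b := by
      rcases hb0 with h | h
      · rw [h]; exact hb.ne.symm
      · exact fun e => hbD (e ▸ h)
    by_cases h : ∃ b' ∈ C, b' ∉ D ∧ σ.Pre b' b
    · obtain ⟨b', hb'C, hb'D, hpre⟩ := h
      have hb' := (hC b').1 hb'C
      have hlev : σ.lev b < σ.lev b' := by
        obtain ⟨u, hu1, hu2⟩ := hpre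
        have h1 := σ.lev_U hu1
        have h2 := σ.ball_lev hu2
        omega
      have hw1 := (σ.walk_between hcl hb hbD (σ.intact hcl hb' hb'D) hpre).1
      have hNb' := hN b'
      obtain ⟨D1, f1, g1, k1, p1, p2, p3, p4, p5, p6, p7, p8, p9, p10, p11, p12⟩ :=
        ih D b0 b' (l + 59) f g (by omega) hDC hcl hb'C hb'D hb0 hsf hsg hfg (hw.trans hw1)
      have hbD1 : b ∉ D1 := by
        intro hh
        rcases p5 b hh with h1 | h1
        · exact hbD h1
        · omega
      have hw2' := (σ.walk_between p3 hb hbD1 p6 hpre).2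
      have hcard : (C \ D1).card + 1 ≤ (C \ D).card := by
        have : (C \ D1) ⊂ (C \ D) := by
          rw [Finset.ssubset_iff_of_subset (Finset.sdiff_subset_sdiff (Finset.Subset.refl _) p1)]
          exact ⟨b', Finset.mem_sdiff.2 ⟨hb'C, hb'D⟩, fun hh => (Finset.mem_sdiff.1 hh).2 p4⟩
        exact Finset.card_lt_card this
      have hmul : ((C \ D1).card + 1) * (N + 1) ≤ (C \ D).card * (N + 1) :=
        Nat.mul_le_mul_right _ hcard
      obtain ⟨D2, f2, g2, k2, q1, q2, q3, q4, q5, q6, q7, q8, q9, q10, q11, q12⟩ :=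
        ih D1 b' b 59 f1 g1 (by
          rw [add_mul] at hmul
          omega) p2 p3 hbC hbD1 (Or.inr p4)
          ⟨p10.good_right, Or.inr ⟨hb', (σ.zone_sub b').trans p6, p7⟩⟩
          ⟨p11.good_right, Or.inr ⟨hb', (σ.zone_sub b').trans p6, p8⟩⟩ p9 hw2'
      refine ⟨D2, f2, g2, k1 + k2, p1.trans q1, q2, q3, q4, ?_, q6, q7, q8, q9,
        p10.trans (q10.mono (σ.DS_mono p1) (le_refl _)), p11.trans (q11.mono (σ.DS_mono p1) (le_refl _)), ?_⟩
      · intro c hc
        rcases q5 c hc with h1 | h1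
        · rcases p5 c h1 with h2 | h2
          · exact Or.inl h2
          · exact Or.inr (by omega)
        · exact Or.inr h1
      · have hsum : ∑ c ∈ D2 \ D, σ.wt c = ∑ c ∈ D2 \ D1, σ.wt c + ∑ c ∈ D1 \ D, σ.wt c := by
          rw [← Finset.sum_union]
          · congr 1
            ext c
            simp only [Finset.mem_sdiff, Finset.mem_union]
            constructor
            · rintro ⟨h1, h2⟩
              by_cases h3 : c ∈ D1
              · exact Or.inr ⟨h3, h2⟩
              · exact Or.inl ⟨h1, h3⟩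
            · rintro (⟨h1, h2⟩ | ⟨h1, h2⟩)
              · exact ⟨h1, fun h3 => h2 (p1 h3)⟩
              · exact ⟨q1 h1, h2⟩
          · rw [Finset.disjoint_left]
            intro c h1 h2
            exact (Finset.mem_sdiff.1 h1).2 (Finset.mem_sdiff.1 h2).1
        have hphi : σ.phi b' = 4 * G.degree (σ.X' b') := by
          unfold phi; rw [if_neg hb'.ne]
        rw [hphi] at q12
        omega
    · push Not at h
      have hint := σ.intact hcl hb hbD
      have hz : σ.zone b ⊆ (σ.DS D)ᶜ := (σ.zone_sub b).trans hint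
      obtain ⟨f1, a1, a2⟩ := σ.arrive hL hw2 hb hne hsf hw hz
      obtain ⟨g1, a3, a4⟩ := σ.arrive hL hw2 hb hne hsg hw hz
      have hfg1 : ∀ u ∈ σ.DS D, f1 u = g1 u := fun u hu => by
        rw [a1.agree u (fun h => h hu), a3.agree u (fun h => h hu), hfg u hu]
      obtain ⟨f2, g2, c1, c2, c3, c4, c5, c6⟩ := σ.unit hL hb hbD hint a1.good_right a3.good_right hfg1
        a2 a4
      refine ⟨insert b D, f2, g2, _, Finset.subset_insert _ _, ?_, ?_, Finset.mem_insert_self _ _, ?_,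
        σ.intact_insert hcl hb hbD, c5, c6, ?_, a1.trans c1, a3.trans c2, ?_⟩
      · exact Finset.insert_subset hbC hDC
      · intro b1 hb1 b' hb' hpre
        rcases Finset.mem_insert.1 hb1 with h1 | h1
        · rw [h1] at hpre
          by_contra hcon
          exact h b' ((hC b').2 hb') (fun h2 => hcon (Finset.mem_insert_of_mem h2)) hpre
        · exact Finset.mem_insert_of_mem (hcl b1 h1 b' hb' hpre)
      · intro c hc
        rcases Finset.mem_insert.1 hc with h1 | h1
        · exact Or.inr (by rw [h1])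
        · exact Or.inl h1
      · intro u hu
        rcases σ.mem_DS_insert.1 hu with h1 | h1
        · exact c3 u h1
        · exact c4 u h1
      · have : insert b D \ D = {b} := by
          ext c
          simp only [Finset.mem_sdiff, Finset.mem_insert, Finset.mem_singleton]
          constructor
          · rintro ⟨h1 | h1, h2⟩
            · exact h1
            · exact absurd h1 h2
          · rintro rfl
            exact ⟨Or.inl rfl, hbD⟩
        rw [this, Finset.sum_singleton]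
        unfold wt
        omega

theorem root (hL : ∀ v, G.degree v + 1 ≤ (L v).card) (hw2 : G.degree w + 2 ≤ (L w).card)
    (C : Finset V) (hC : ∀ b, b ∈ C ↔ σ.IsC b) (N : ℕ) (hN : ∀ v, σ.lev v ≤ N) :
    ∀ (n : ℕ) (D : Finset V) (f g : V → K), (C \ D).card ≤ n → D ⊆ C → σ.Closed D → Good G L f →
      Good G L g → (∀ u ∈ σ.DS D, f u = g u) →
      ∃ (f' g' : V → K) (k : ℕ), Reach G L Set.univ k f f' ∧ Reach G L Set.univ k g g' ∧
        (∀ u ∈ σ.DS C, f' u = g' u) ∧ k ≤ ∑ c ∈ C \ D, (σ.wt c + 32) := by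
  classical
  intro n
  induction n with
  | zero =>
    intro D f g hn hDC hcl hf hg hfg
    have h0 : C \ D = ∅ := Finset.card_eq_zero.1 (by omega)
    have hCD : C ⊆ D := Finset.sdiff_eq_empty_iff_subset.1 h0
    have : D = C := Finset.Subset.antisymm hDC hCD
    subst this
    exact ⟨f, g, 0, Reach.refl _ _ hf, Reach.refl _ _ hg, hfg, by simp⟩
  | succ n ih =>
    intro D f g hn hDC hcl hf hg hfg
    by_cases h0 : (C \ D).card = 0
    · exact ih D f g (by omega) hDC hcl hf hg hfg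
    · have hne : (C \ D).Nonempty := Finset.card_pos.1 (by omega)
      obtain ⟨b, hbCD, hmin⟩ := Finset.exists_min_image (C \ D) σ.lev hne
      obtain ⟨hbC, hbD⟩ := Finset.mem_sdiff.1 hbCD
      have hb := (hC b).1 hbC
      have hb8 : σ.lev b = 8 := by
        by_contra hcon
        have h1 := hb.lev
        have h16 : 16 ≤ σ.lev b := by omega
        have hU : b ∈ σ.U (σ.cen b) := ⟨h16, rfl⟩
        have hpre : σ.Pre b (σ.cen b) := ⟨b, hU, σ.zone_sub _ (σ.mem_zone_self b)⟩
        have hcC : σ.cen b ∈ C := (hC _).2 ⟨b, h16, rfl⟩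
        have hcD : σ.cen b ∉ D := fun hh => hbD (hcl _ hh b hb hpre)
        have h2 := hmin _ (Finset.mem_sdiff.2 ⟨hcC, hcD⟩)
        have h3 := σ.lev_U hU
        omega
      have hend : σ.par^[8] b = w := by
        have := lev_iter σ.ld b 8 (by omega)
        exact (σ.ld.zero _).1 (by omega)
      have hw : Wk G (σ.DS D)ᶜ 8 w b := by
        have h := path_down (G := G) (fun i => σ.par^[i] b) (n := 8) (S := (σ.DS D)ᶜ)
          (fun i hi => adj_iter σ.ld b i (by omega))
          (fun i h1 h2 hh => by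
            have h3 := lev_iter σ.ld b i (by omega)
            have h4 := hh.1
            omega)
        exact Wk.cast h hend
      obtain ⟨D1, f1, g1, k1, p1, p2, p3, p4, p5, p6, p7, p8, p9, p10, p11, p12⟩ :=
        σ.proc hL hw2 C hC N hN ((C \ D).card * (N + 1) + (N - σ.lev b) + 1) D w b 8 f g
          (Nat.lt_succ_self _) hDC hcl hbC hbD (Or.inl rfl) ⟨hf, Or.inl rfl⟩ ⟨hg, Or.inl rfl⟩ hfg hw
      have hcard : (C \ D1).card + 1 ≤ (C \ D).card := by
        have : (C \ D1) ⊂ (C \ D) := by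
          rw [Finset.ssubset_iff_of_subset (Finset.sdiff_subset_sdiff (Finset.Subset.refl _) p1)]
          exact ⟨b, Finset.mem_sdiff.2 ⟨hbC, hbD⟩, fun hh => (Finset.mem_sdiff.1 hh).2 p4⟩
        exact Finset.card_lt_card this
      obtain ⟨f2, g2, k2, q1, q2, q3, q4⟩ := ih D1 f1 g1 (by omega) p2 p3 p10.good_right
        p11.good_right p9
      refine ⟨f2, g2, k1 + k2, (p10.mono (Set.subset_univ _) (le_refl _)).trans q1,
        (p11.mono (Set.subset_univ _) (le_refl _)).trans q2, q3, ?_⟩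
      have hsum : ∑ c ∈ C \ D, (σ.wt c + 32) =
          ∑ c ∈ C \ D1, (σ.wt c + 32) + ∑ c ∈ D1 \ D, (σ.wt c + 32) := by
        rw [← Finset.sum_union]
        · congr 1
          ext c
          simp only [Finset.mem_sdiff, Finset.mem_union]
          constructor
          · rintro ⟨h1, h2⟩
            by_cases h3 : c ∈ D1
            · exact Or.inr ⟨h3, h2⟩
            · exact Or.inl ⟨h1, h3⟩
          · rintro (⟨h1, h2⟩ | ⟨h1, h2⟩)
            · exact ⟨h1, fun h3 => h2 (p1 h3)⟩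
            · exact ⟨p2 h1, h2⟩
        · rw [Finset.disjoint_left]
          intro c h1 h2
          exact (Finset.mem_sdiff.1 h1).2 (Finset.mem_sdiff.1 h2).1
      have hsum2 : ∑ c ∈ D1 \ D, (σ.wt c + 32) = ∑ c ∈ D1 \ D, σ.wt c + (D1 \ D).card * 32 := by
        rw [Finset.sum_add_distrib, Finset.sum_const, smul_eq_mul]
      have hpos : 1 ≤ (D1 \ D).card := Finset.card_pos.2 ⟨b, Finset.mem_sdiff.2 ⟨p4, hbD⟩⟩
      have hphi : σ.phi w = 0 := by unfold phi; simp
      rw [hphi] at p12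
      omega

include σ in
/-- the two runs meet -/
theorem meet (hL : ∀ v, G.degree v + 1 ≤ (L v).card) (hw2 : G.degree w + 2 ≤ (L w).card)
    {f g : V → K} (hf : Good G L f) (hg : Good G L g) :
    ∃ h, Reach G L Set.univ (1018 * Fintype.card V) f h ∧
      Reach G L Set.univ (1018 * Fintype.card V) g h := by
  classical
  set C : Finset V := Finset.univ.filter (fun b => σ.IsC b) with hCdef
  have hC : ∀ b, b ∈ C ↔ σ.IsC b := fun b => by rw [hCdef]; simp
  obtain ⟨f1, g1, k, a1, a2, a3, a4⟩ := σ.root hL hw2 C hC (Finset.univ.sup σ.lev)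
    (fun v => Finset.le_sup (f := σ.lev) (Finset.mem_univ v)) (C \ ∅).card ∅ f g (le_refl _)
    (Finset.empty_subset _) (fun b hb => absurd hb (Finset.notMem_empty _)) hf hg
    (fun u hu => absurd hu.2 (Finset.notMem_empty _))
  have hDS : ∀ u, 16 ≤ σ.lev u → u ∈ σ.DS C := fun u hu => ⟨hu, (hC _).2 ⟨u, hu, rfl⟩⟩
  set W : Finset V := Finset.univ.filter (fun v => σ.lev v < 16) with hW
  have mW : ∀ v, v ∈ W ↔ σ.lev v < 16 := fun v => by rw [hW]; simp
  obtain ⟨f2, g2, b1, b2, b3, b4⟩ := clearSet hL σ.lev w 15 W.card W {v | σ.lev v < 16}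
    {v | 16 ≤ σ.lev v} f1 g1 rfl a1.good_right a2.good_right (fun u hu => a3 u (hDS u hu))
    (fun u hu h => by
      have h1 : 16 ≤ σ.lev u := hu
      have h2 : σ.lev u < 16 := h
      omega)
    (fun u hu => (mW u).1 hu)
    (fun v hv u hvu => by
      by_cases h : σ.lev u < 16
      · exact Or.inl h
      · exact Or.inr (by show 16 ≤ σ.lev u; omega))
    (fun v hv => by
      have hv' := (mW v).1 hv
      have hend : σ.par^[σ.lev v] v = w := by
        have := lev_iter σ.ld v (σ.lev v) (le_refl _)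
        exact (σ.ld.zero _).1 (by omega)
      have h := path_down (G := G) (fun i => σ.par^[i] v) (n := σ.lev v)
        (S := {v | σ.lev v < 16} \ {v' | v' ∈ W ∧ σ.lev v ≤ σ.lev v'})
        (fun i hi => adj_iter σ.ld v i (by omega))
        (fun i h1 h2 => by
          have h3 := lev_iter σ.ld v i (by omega)
          refine ⟨?_, fun h4 => ?_⟩
          · show σ.lev (σ.par^[i] v) < 16
            omega
          · have := h4.2
            omega)
      exact (Wk.cast h hend).mono (le_refl _) (by omega))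
    (fun f' hf' _ => unf_of_reason (hL w) hf' (P := ∅) (Or.inr (Or.inr hw2)))
    (fun f' hf' _ => unf_of_reason (hL w) hf' (P := ∅) (Or.inr (Or.inr hw2)))
  have heq : f2 = g2 := by
    funext u
    by_cases h : σ.lev u < 16
    · exact b4 u ((mW u).2 h)
    · exact b3 u (by show 16 ≤ σ.lev u; omega)
  have hWc : W.card ≤ Fintype.card V := Finset.card_le_univ _
  have hk : k ≤ 1000 * Fintype.card V := by
    have e1 : ∑ c ∈ C \ ∅, (σ.wt c + 32) = 52 * ∑ c ∈ C, (σ.Uf c).card + 8 * ∑ c ∈ C, G.degree (σ.X c) +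
        8 * ∑ c ∈ C, G.degree (σ.X' c) + C.card * 932 := by
      rw [Finset.sdiff_empty, Finset.mul_sum, Finset.mul_sum, Finset.mul_sum, ← Finset.sum_add_distrib,
        ← Finset.sum_add_distrib, ← smul_eq_mul (a := C.card), ← Finset.sum_const,
        ← Finset.sum_add_distrib]
      apply Finset.sum_congr rfl
      intro c _
      unfold wt
      omega
    have e2 : ∑ c ∈ C, (σ.Uf c).card ≤ Fintype.card V := by
      rw [← Finset.card_biUnion]
      · exact Finset.card_le_univ _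
      · intro c _ c' _ hne
        rw [Function.onFun, Finset.disjoint_left]
        intro v hv hv'
        rw [mem_Uf] at hv hv'
        exact hne (hv.2.symm.trans hv'.2)
    have e3 := σ.sum_X_le C (fun b hb => (hC b).1 hb)
    have e4 := σ.sum_X'_le C (fun b hb => (hC b).1 hb)
    have e5 : C.card ≤ Fintype.card V := Finset.card_le_univ _
    omega
  refine ⟨f2, ?_, ?_⟩
  · exact (a1.trans (b1.mono (Set.subset_univ _) (le_refl _))).mono (le_refl _) (by omega)
  · rw [heq]
    exact (a2.trans (b2.mono (Set.subset_univ _) (le_refl _))).mono (le_refl _) (by omega)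

end Setup

end Pool.Agent.helper10.RC
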