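import Pool.Agent.helper10.RC.G

/-! Final assembly: level data from distances, shrinking of lists, greedy colouring, the recolouring graph. -/

set_option linter.unusedSectionVars false
set_option linter.unusedVariables false

namespace Pool.Agent.helper10.RC

variable {V : Type*} {K : Type*}

/-- The recolouring graph: vertices are the proper `L`-colourings, two of them are adjacent when they differ
at exactly one vertex of `G`. -/
def recolGraph (G : SimpleGraph V) (L : V → Finset K) : SimpleGraph {f : V → K // Good G L f} where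
  Adj f g := ∃ v, f.1 v ≠ g.1 v ∧ ∀ u, u ≠ v → f.1 u = g.1 u
  symm := ⟨fun f g ⟨v, h1, h2⟩ => ⟨v, h1.symm, fun u hu => (h2 u hu).symm⟩⟩
  loopless := ⟨fun f ⟨v, h1, _⟩ => h1 rfl⟩

theorem exists_levelData {G : SimpleGraph V} (hG : G.Connected) (w : V) :
    ∃ par : V → V, LevelData G w (fun v => G.dist w v) par := by
  classical
  have hex : ∀ v, G.dist w v ≠ 0 → ∃ u, G.Adj v u ∧ G.dist w u + 1 = G.dist w v := by
    intro v hv
    obtain ⟨p, hp⟩ := hG.exists_walk_length_eq_dist v w
    cases p with
    | nil => simp at hv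
    | cons h q =>
      rename_i u
      refine ⟨u, h, ?_⟩
      have h1 : G.dist u w ≤ q.length := SimpleGraph.dist_le q
      have h2 : q.length + 1 = G.dist v w := by rw [← hp, SimpleGraph.Walk.length_cons]
      have h3 : G.dist w v ≤ G.dist w u + G.dist u v := hG.dist_triangle
      have h4 : G.dist u v = 1 := SimpleGraph.dist_eq_one_iff_adj.2 h.symm
      have h5 : G.dist u w = G.dist w u := SimpleGraph.dist_comm
      have h6 : G.dist v w = G.dist w v := SimpleGraph.dist_comm
      omega
  refine ⟨fun v => if h : G.dist w v ≠ 0 then (hex v h).choose else v, ?_, ?_, ?_, ?_⟩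
  · intro u v huv
    have h3 : G.dist w u ≤ G.dist w v + G.dist v u := hG.dist_triangle
    have h4 : G.dist v u = 1 := SimpleGraph.dist_eq_one_iff_adj.2 huv.symm
    show G.dist w u ≤ G.dist w v + 1
    omega
  · intro v hv
    have hv' : G.dist w v ≠ 0 := hv
    simp only [dif_pos hv']
    exact (hex v hv').choose_spec.1
  · intro v hv
    have hv' : G.dist w v ≠ 0 := hv
    simp only [dif_pos hv']
    exact (hex v hv').choose_spec.2
  · intro v
    show G.dist w v = 0 ↔ v = w
    rw [hG.dist_eq_zero_iff]
    exact eq_comm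

section

variable [Fintype V] [DecidableEq V] [DecidableEq K]
variable {G : SimpleGraph V} [DecidableRel G.Adj] {L : V → Finset K}

/-- greedy colouring -/
theorem exists_good (hL : ∀ v, G.degree v + 1 ≤ (L v).card) : ∃ f, Good G L f := by
  classical
  have key : ∀ S : Finset V, ∃ f : V → K, (∀ v, f v ∈ L v) ∧
      ∀ u ∈ S, ∀ v ∈ S, G.Adj u v → f u ≠ f v := by
    intro S
    induction S using Finset.induction_on with
    | empty =>
      have h : ∀ v, ∃ c, c ∈ L v := fun v => by
        have := hL v
        exact Finset.card_pos.1 (by omega)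
      choose f hf using h
      exact ⟨f, hf, by simp⟩
    | insert a S ha ih =>
      obtain ⟨f, hf, hp⟩ := ih
      have : ∃ c ∈ L a, c ∉ (G.neighborFinset a).image f := by
        apply Finset.exists_mem_notMem_of_card_lt_card
        have h1 : ((G.neighborFinset a).image f).card ≤ (G.neighborFinset a).card := Finset.card_image_le
        have h2 := G.card_neighborFinset_eq_degree a
        have h3 := hL a
        omega
      obtain ⟨c, hc, hcn⟩ := this
      have hcn' : ∀ u, G.Adj a u → f u ≠ c := fun u hu he =>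
        hcn (Finset.mem_image.2 ⟨u, by simpa using hu, he⟩)
      refine ⟨Function.update f a c, ?_, ?_⟩
      · intro v
        by_cases h : v = a
        · subst h; simpa using hc
        · simpa [Function.update_of_ne h] using hf v
      · intro u hu v hv huv
        by_cases h : u = a
        · subst h
          have h' : v ≠ u := huv.ne'
          rw [Function.update_self, Function.update_of_ne h']
          exact (hcn' v huv).symm
        · by_cases h' : v = a
          · subst h'
            rw [Function.update_self, Function.update_of_ne h]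
            exact hcn' u huv.symm
          · rw [Function.update_of_ne h, Function.update_of_ne h']
            exact hp u (Finset.mem_of_mem_insert_of_ne hu h) v (Finset.mem_of_mem_insert_of_ne hv h') huv
  obtain ⟨f, hf, hp⟩ := key Finset.univ
  exact ⟨f, hf, fun u v huv => hp u (Finset.mem_univ _) v (Finset.mem_univ _) huv⟩

theorem Good.mono {L' : V → Finset K} (hLL : ∀ v, L' v ⊆ L v) {f : V → K} (hf : Good G L' f) :
    Good G L f := ⟨fun v => hLL v (hf.1 v), hf.2⟩

/-- a sequence of recolourings gives a walk in the recolouring graph -/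
theorem Reach.edist_le {L' : V → Finset K} (hLL : ∀ v, L' v ⊆ L v) {M : Set V} {k : ℕ} {f g : V → K}
    (h : Reach G L' M k f g) (hf : Good G L f) (hg : Good G L g) :
    (recolGraph G L).edist ⟨f, hf⟩ ⟨g, hg⟩ ≤ (k : ℕ∞) := by
  induction h with
  | refl k f _ => rw [SimpleGraph.edist_self]; exact bot_le
  | tail k f g h v h1 h2 hv hu ih =>
    have hg' : Good G L g := h1.good_right.mono hLL
    have h3 := ih hf hg'
    have h4 : (recolGraph G L).edist ⟨g, hg'⟩ ⟨h, hg⟩ ≤ 1 := by
      by_cases he : g v = h v
      · have : g = h := by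
          funext u
          by_cases huv : u = v
          · rw [huv]; exact he
          · exact (hu u huv).symm
        subst this
        rw [SimpleGraph.edist_self]; exact bot_le
      · have hadj : (recolGraph G L).Adj ⟨g, hg'⟩ ⟨h, hg⟩ := ⟨v, he, fun u huv => (hu u huv).symm⟩
        rw [(SimpleGraph.edist_eq_one_iff_adj).2 hadj]
    calc (recolGraph G L).edist ⟨f, hf⟩ ⟨h, hg⟩
        ≤ (recolGraph G L).edist ⟨f, hf⟩ ⟨g, hg'⟩ + (recolGraph G L).edist ⟨g, hg'⟩ ⟨h, hg⟩ :=
          SimpleGraph.edist_triangle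
      _ ≤ (k : ℕ∞) + 1 := add_le_add h3 h4
      _ = ((k + 1 : ℕ) : ℕ∞) := by push_cast; rfl

theorem shrink (hd : ∀ v, 3 ≤ G.degree v) {w : V} (hL : ∀ v, G.degree v + 1 ≤ (L v).card)
    (hw : G.degree w + 2 ≤ (L w).card) {f g : V → K} (hf : ∀ v, f v ∈ L v) (hg : ∀ v, g v ∈ L v) :
    ∃ L' : V → Finset K, (∀ v, L' v ⊆ L v) ∧ (∀ v, f v ∈ L' v) ∧ (∀ v, g v ∈ L' v) ∧
      (∀ v, v ≠ w → (L' v).card = G.degree v + 1) ∧ (L' w).card = G.degree w + 2 := by
  have h : ∀ v, ∃ A : Finset K, A ⊆ L v ∧ f v ∈ A ∧ g v ∈ A ∧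
      A.card = if v = w then G.degree v + 2 else G.degree v + 1 := by
    intro v
    have h1 : ({f v, g v} : Finset K) ⊆ L v := by
      intro c hc
      rcases Finset.mem_insert.1 hc with rfl | hc
      · exact hf v
      · rw [Finset.mem_singleton.1 hc]; exact hg v
    have h2 : ({f v, g v} : Finset K).card ≤ 2 := Finset.card_le_two
    have h3 := hd v
    have h4 := hL v
    obtain ⟨A, hA1, hA2, hA3⟩ := Finset.exists_subsuperset_card_eq h1
      (n := if v = w then G.degree v + 2 else G.degree v + 1) (by split_ifs <;> omega) (by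
        split_ifs with hvw
        · rw [hvw]; exact hw
        · exact h4)
    exact ⟨A, hA2, hA1 (by simp), hA1 (by simp), hA3⟩
  choose L' h1 h2 h3 h4 using h
  refine ⟨L', h1, h2, h3, fun v hv => ?_, ?_⟩
  · rw [h4 v, if_neg hv]
  · rw [h4 w, if_pos rfl]

/-- distance of any two colourings -/
theorem edist_le (hG : G.Connected) (hd : ∀ v, 3 ≤ G.degree v)
    (hL : ∀ v, G.degree v + 1 ≤ (L v).card) (hw : ∃ w, G.degree w + 2 ≤ (L w).card)
    (f g : {f : V → K // Good G L f}) :
    (recolGraph G L).edist f g ≤ ((2036 * Fintype.card V : ℕ) : ℕ∞) := by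
  obtain ⟨w, hw⟩ := hw
  obtain ⟨L', h1, h2, h3, h4, h5⟩ := shrink hd hL hw f.2.1 g.2.1
  obtain ⟨par, ld⟩ := exists_levelData hG w
  have hL' : ∀ v, G.degree v + 1 ≤ (L' v).card := by
    intro v
    by_cases hv : v = w
    · rw [hv, h5]; omega
    · rw [h4 v hv]
  obtain ⟨σ⟩ := exists_setup hL' ld h4 hd
  have hf : Good G L' f.1 := ⟨h2, f.2.2⟩
  have hg : Good G L' g.1 := ⟨h3, g.2.2⟩
  obtain ⟨h, r1, r2⟩ := σ.meet hL' (by rw [h5]) hf hg
  have hh : Good G L h := r1.good_right.mono h1
  have e1 := r1.edist_le h1 f.2 hh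
  have e2 := r2.edist_le h1 g.2 hh
  calc (recolGraph G L).edist f g
      ≤ (recolGraph G L).edist f ⟨h, hh⟩ + (recolGraph G L).edist ⟨h, hh⟩ g :=
        SimpleGraph.edist_triangle
    _ ≤ ((1018 * Fintype.card V : ℕ) : ℕ∞) + ((1018 * Fintype.card V : ℕ) : ℕ∞) := by
        apply add_le_add e1
        rw [SimpleGraph.edist_comm]
        exact e2
    _ = ((2036 * Fintype.card V : ℕ) : ℕ∞) := by
        rw [← Nat.cast_add]
        congr 1
        omega

theorem main (hG : G.Connected) (hd : ∀ v, 3 ≤ G.degree v)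
    (hL : ∀ v, G.degree v + 1 ≤ (L v).card) (hw : ∃ w, G.degree w + 2 ≤ (L w).card) :
    (recolGraph G L).Connected ∧ (recolGraph G L).ediam ≤ ((2036 * Fintype.card V : ℕ) : ℕ∞) := by
  have hb := fun f g => edist_le hG hd hL hw f g
  constructor
  · have : Nonempty {f : V → K // Good G L f} := by
      obtain ⟨f, hf⟩ := exists_good hL
      exact ⟨⟨f, hf⟩⟩
    refine ⟨fun f g => ?_⟩
    apply SimpleGraph.reachable_of_edist_ne_top
    exact ne_top_of_le_ne_top (ENat.natCast_ne_top _) (hb f g)
  · rw [SimpleGraph.ediam_le_iff]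
    exact hb

end

end Pool.Agent.helper10.RC
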